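import Pool.Agent.COT.Sig

/-! # Lists with positive consecutive initial minors -/

set_option autoImplicit false

open Real ComplexConjugate

noncomputable section

namespace COT

/-- all `m x m` minors, `m ≤ n`, of consecutive rows and the first `m` columns are positive (`M` rows) -/
def FTP (n M : ℕ) (y : ℕ → ℕ → ℝ) : Prop :=
  ∀ m, m ≤ n → ∀ z, z + m ≤ M → 0 < (Matrix.of fun i j : Fin m => y (z + i) j).det

/-- differences of the rows normalised by their first entry -/
def nxt (y : ℕ → ℕ → ℝ) : ℕ → ℕ → ℝ :=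
  fun z j => y (z + 1) (j + 1) / y (z + 1) 0 - y z (j + 1) / y z 0

/-- combination of the first `n` columns -/
def val (n : ℕ) (y : ℕ → ℕ → ℝ) (a : ℕ → ℂ) (z : ℕ) : ℂ :=
  ∑ j ∈ Finset.range n, (y z j : ℂ) * a j

/-- the list `v 0, .., v (M - 1)` -/
def lst (v : ℕ → ℂ) : ℕ → List ℂ
  | 0 => []
  | M + 1 => v 0 :: lst (fun i => v (i + 1)) M

theorem FTP.pos {n M : ℕ} {y : ℕ → ℕ → ℝ} (h : FTP (n + 1) M y) {z : ℕ} (hz : z < M) : 0 < y z 0 := by
  have := h 1 (by omega) z (by omega)
  simpa using this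

theorem det_first_col {m : ℕ} (B : Matrix (Fin (m + 1)) (Fin (m + 1)) ℝ) (h0 : B 0 0 = 1)
    (h : ∀ i : Fin m, B i.succ 0 = 0) : B.det = (B.submatrix Fin.succ Fin.succ).det := by
  rw [Matrix.det_succ_column_zero, Fin.sum_univ_succ]
  simp [h0, h]

theorem FTP.nxt {n M : ℕ} {y : ℕ → ℕ → ℝ} (h : FTP (n + 1) M y) : FTP n (M - 1) (nxt y) := by
  intro m hm z hz
  rcases Nat.eq_zero_or_pos m with rfl | hm0
  · simp
  have hM : z + (m + 1) ≤ M := by omega
  have h1 := h (m + 1) (by omega) z hM
  have hc : ∀ i : Fin (m + 1), 0 < (y (z + i) 0)⁻¹ := fun i => inv_pos.2 (h.pos (by omega))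
  have h2 : 0 < (Matrix.of fun i j : Fin (m + 1) => (y (z + i) 0)⁻¹ * y (z + i) j).det := by
    have h3 := Matrix.det_mul_column (fun i : Fin (m + 1) => (y (z + i) 0)⁻¹)
      (Matrix.of fun i j : Fin (m + 1) => y (z + i) j)
    simp only [Matrix.of_apply] at h3
    rw [h3]
    exact mul_pos (Finset.prod_pos fun i _ => hc i) h1
  set N : Matrix (Fin (m + 1)) (Fin (m + 1)) ℝ :=
    Matrix.of fun i j : Fin (m + 1) => (y (z + i) 0)⁻¹ * y (z + i) j with hN
  set B : Matrix (Fin (m + 1)) (Fin (m + 1)) ℝ :=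
    Matrix.of fun i j => Fin.cases (N 0 j) (fun i' => N i'.succ j - N i'.castSucc j) i with hB
  have h4 : N.det = B.det := by
    refine Matrix.det_eq_of_forall_row_eq_smul_add_pred (fun _ => 1) (fun j => ?_) (fun i j => ?_)
    · simp [hB]
    · simp [hB]
  have hN0 : ∀ i : Fin (m + 1), N i 0 = 1 := by
    intro i
    simp only [hN, Matrix.of_apply, Fin.val_zero]
    exact inv_mul_cancel₀ (inv_pos.1 (hc i)).ne'
  rw [h4, det_first_col B (by simp [hB, hN0]) (fun i => by simp [hB, hN0])] at h2
  convert h2 using 2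
  ext i j
  simp only [hB, hN, Matrix.of_apply, Matrix.submatrix_apply, Fin.cases_succ, Fin.val_succ,
    Fin.val_castSucc, COT.nxt]
  rw [div_eq_inv_mul, div_eq_inv_mul, add_assoc]

theorem angs_scale (v w : ℕ → ℂ) (r : ℕ → ℝ) (M : ℕ) (hr : ∀ z < M, 0 < r z)
    (h : ∀ z < M, w z = r z * v z) : angs (lst w M) = angs (lst v M) := by
  induction M generalizing v w r with
  | zero => rfl
  | succ M ih =>
    cases M with
    | zero => rfl
    | succ M =>
      have h1 := ih (fun i => v (i + 1)) (fun i => w (i + 1)) (fun i => r (i + 1))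
        (fun z hz => hr _ (by omega)) (fun z hz => h _ (by omega))
      show ang (w 0) (w 1) :: angs (lst (fun i => w (i + 1)) (M + 1)) =
        ang (v 0) (v 1) :: angs (lst (fun i => v (i + 1)) (M + 1))
      rw [h1]
      congr 1
      have h2 : conj (w 0) * w 1 = ((r 0 * r 1 : ℝ) : ℂ) * (conj (v 0) * v 1) := by
        rw [h 0 (by omega), h 1 (by omega), map_mul, Complex.conj_ofReal]
        push_cast
        ring
      rw [ang, ang, h2, Complex.arg_real_mul _ (mul_pos (hr 0 (by omega)) (hr 1 (by omega)))]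

theorem D_scale (u v : ℂ) (r s : ℝ) : D (r * u) (s * v) = r * s * D u v := by
  simp only [D_eq, Complex.mul_re, Complex.mul_im, Complex.ofReal_re, Complex.ofReal_im]
  ring

theorem diffs_lst (v : ℕ → ℂ) (M : ℕ) :
    diffs (v 0) (lst (fun i => v (i + 1)) M) = lst (fun i => v (i + 1) - v i) M := by
  induction M generalizing v with
  | zero => rfl
  | succ M ih =>
    show (v 1 - v 0) :: diffs (v 1) (lst (fun i => v (i + 1 + 1)) M) = _
    rw [ih (fun i => v (i + 1))]
    rfl

theorem ndD_lst (v : ℕ → ℂ) (M : ℕ) (h : ∀ z, z + 1 < M → D (v z) (v (z + 1)) ≠ 0) :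
    ndD (lst v M) := by
  induction M generalizing v with
  | zero => trivial
  | succ M ih =>
    cases M with
    | zero => trivial
    | succ M => exact ⟨h 0 (by omega), ih (fun i => v (i + 1)) fun z hz => h (z + 1) (by omega)⟩

theorem ndN_lst (v : ℕ → ℂ) (M : ℕ) (h : ∀ z, z + 1 < M → NA (v z) (v (z + 1))) :
    ndN (lst v M) := by
  induction M generalizing v with
  | zero => trivial
  | succ M ih =>
    cases M with
    | zero => trivial
    | succ M => exact ⟨h 0 (by omega), ih (fun i => v (i + 1)) fun z hz => h (z + 1) (by omega)⟩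

theorem angs_zero (v : ℕ → ℂ) (M : ℕ) (h : ∀ z, z + 1 < M → ang (v z) (v (z + 1)) = 0) :
    ∀ d ∈ angs (lst v M), d = 0 := by
  induction M generalizing v with
  | zero => simp [lst, angs]
  | succ M ih =>
    cases M with
    | zero => simp [lst, angs]
    | succ M =>
      intro d hd
      have hd' : d ∈ ang (v 0) (v 1) :: angs (lst (fun i => v (i + 1)) (M + 1)) := hd
      rcases List.mem_cons.1 hd' with rfl | hd'
      · exact h 0 (by omega)
      · exact ih (fun i => v (i + 1)) (fun z hz => h (z + 1) (by omega)) d hd'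

/-- the normalised vector -/
def nv (n : ℕ) (y : ℕ → ℕ → ℝ) (a : ℕ → ℂ) (z : ℕ) : ℂ := (((y z 0)⁻¹ : ℝ) : ℂ) * val n y a z

theorem nv_eq (n M : ℕ) (y : ℕ → ℕ → ℝ) (a : ℕ → ℂ) (h : FTP (n + 1) M y) (z : ℕ) (hz : z < M) :
    nv (n + 1) y a z = a 0 + ∑ j ∈ Finset.range n, ((y z (j + 1) / y z 0 : ℝ) : ℂ) * a (j + 1) := by
  have h0 : (y z 0 : ℂ) ≠ 0 := by exact_mod_cast (h.pos hz).ne'
  rw [nv, val, Finset.sum_range_succ', mul_add, add_comm, Finset.mul_sum]
  congr 1
  · push_cast
    field_simp
  · refine Finset.sum_congr rfl fun j _ => ?_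
    push_cast
    field_simp

theorem nv_sub (n M : ℕ) (y : ℕ → ℕ → ℝ) (a : ℕ → ℂ) (h : FTP (n + 1) M y) (z : ℕ) (hz : z + 1 < M) :
    nv (n + 1) y a (z + 1) - nv (n + 1) y a z = val n (nxt y) (fun j => a (j + 1)) z := by
  rw [nv_eq n M y a h _ hz, nv_eq n M y a h z (by omega), add_sub_add_left_eq_sub, ← Finset.sum_sub_distrib]
  refine Finset.sum_congr rfl fun j _ => ?_
  simp only [nxt]
  push_cast
  ring

/-- genericity: all iterated determinants are nonzero -/
def Gen : ℕ → ℕ → (ℕ → ℕ → ℝ) → (ℕ → ℂ) → Prop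
  | 0, _, _, _ => True
  | 1, M, y, a => ∀ z < M, val 1 y a z ≠ 0
  | n + 2, M, y, a => (∀ z < M, val (n + 2) y a z ≠ 0) ∧
      (∀ z, z + 1 < M → D (val (n + 2) y a z) (val (n + 2) y a (z + 1)) ≠ 0) ∧
      Gen (n + 1) (M - 1) (nxt y) (fun j => a (j + 1))

theorem sig_scale (v w : ℕ → ℂ) (r : ℕ → ℝ) (M : ℕ) (hr : ∀ z < M, 0 < r z)
    (h : ∀ z < M, w z = r z * v z) : sig (lst w M) = sig (lst v M) := by
  rw [sig, sig, angs_scale v w r M hr h]

/-- the potential of a generic image of a list with positive initial minors -/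
theorem sig_le_of_gen (n : ℕ) : ∀ (M : ℕ) (y : ℕ → ℕ → ℝ) (a : ℕ → ℂ), FTP (n + 2) M y →
    Gen (n + 2) M y a → sig (lst (val (n + 2) y a) M) ≤ 2 * n := by
  induction n with
  | zero =>
    intro M y a h hg
    cases M with
    | zero => simp [lst, sig, angs, pot_nil]
    | succ M =>
      have h1 : sig (lst (nv 2 y a) (M + 1)) = sig (lst (val 2 y a) (M + 1)) :=
        sig_scale _ _ (fun z => (y z 0)⁻¹) _ (fun z hz => inv_pos.2 (h.pos hz)) fun z _ => rfl
      rw [← h1]
      have ha : a 1 ≠ 0 ∨ M = 0 := by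
        by_contra hcon
        push_neg at hcon
        have := hg.2.1 0 (by omega)
        apply this
        have h3 : ∀ z, val 2 y a z = (y z 0 : ℝ) * a 0 := by
          intro z
          simp [val, Finset.sum_range_succ, hcon.1]
        rw [h3, h3, D_scale, D_self, mul_zero]
      have hnd : ndD (lst (nv 2 y a) (M + 1)) := by
        refine ndD_lst _ _ fun z hz => ?_
        rw [nv, nv, D_scale]
        exact mul_ne_zero (mul_ne_zero (inv_pos.2 (h.pos (by omega))).ne'
          (inv_pos.2 (h.pos hz)).ne') (hg.2.1 z hz)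
      have hd : diffs (nv 2 y a 0) (lst (fun i => nv 2 y a (i + 1)) M) =
          lst (fun i => nv 2 y a (i + 1) - nv 2 y a i) M := diffs_lst _ _
      have hv : ∀ z, z < M → nv 2 y a (z + 1) - nv 2 y a z = (nxt y z 0 : ℝ) * a 1 := by
        intro z hz
        rw [nv_sub 1 (M + 1) y a h z (by omega)]
        simp [val]
      have hp : ∀ z, z < M → 0 < nxt y z 0 := by
        intro z hz
        exact (h.nxt).pos (n := 0) (by omega)
      refine (sig_diffs_parallel (nv 2 y a 0) (lst (fun i => nv 2 y a (i + 1)) M) hnd ?_ ?_).trans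
        (by simp)
      · rw [hd]
        refine ndN_lst _ _ fun z hz => ?_
        have hz1 := hp z (by omega)
        have hz2 := hp (z + 1) (by omega)
        rcases ha with ha | ha
        · rw [hv z (by omega), hv (z + 1) (by omega), NA]
          have : conj ((nxt y z 0 : ℝ) * a 1 : ℂ) * ((nxt y (z + 1) 0 : ℝ) * a 1) =
              ((nxt y z 0 * nxt y (z + 1) 0 * Complex.normSq (a 1) : ℝ) : ℂ) := by
            rw [map_mul, Complex.conj_ofReal]
            push_cast
            rw [Complex.normSq_eq_conj_mul_self]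
            ring
          rw [this]
          exact Complex.ofReal_mem_slitPlane.2 (mul_pos (mul_pos hz1 hz2) (Complex.normSq_pos.2 ha))
        · omega
      · rw [hd]
        refine angs_zero _ _ fun z hz => ?_
        have hz1 := hp z (by omega)
        have hz2 := hp (z + 1) (by omega)
        rw [hv z (by omega), hv (z + 1) (by omega), ang]
        have : conj ((nxt y z 0 : ℝ) * a 1 : ℂ) * ((nxt y (z + 1) 0 : ℝ) * a 1) =
            ((nxt y z 0 * nxt y (z + 1) 0 * Complex.normSq (a 1) : ℝ) : ℂ) := by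
          rw [map_mul, Complex.conj_ofReal]
          push_cast
          rw [Complex.normSq_eq_conj_mul_self]
          ring
        rw [this]
        exact Complex.arg_ofReal_of_nonneg
          (mul_nonneg (mul_pos hz1 hz2).le (Complex.normSq_nonneg _))
  | succ n ih =>
    intro M y a h hg
    cases M with
    | zero =>
      simp only [lst, sig, angs, pot_nil]
      simp
      positivity
    | succ M =>
      have h1 : sig (lst (nv (n + 3) y a) (M + 1)) = sig (lst (val (n + 3) y a) (M + 1)) :=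
        sig_scale _ _ (fun z => (y z 0)⁻¹) _ (fun z hz => inv_pos.2 (h.pos hz)) fun z _ => rfl
      rw [← h1]
      have hnd : ndD (lst (nv (n + 3) y a) (M + 1)) := by
        refine ndD_lst _ _ fun z hz => ?_
        rw [nv, nv, D_scale]
        exact mul_ne_zero (mul_ne_zero (inv_pos.2 (h.pos (by omega))).ne'
          (inv_pos.2 (h.pos hz)).ne') (hg.2.1 z hz)
      have hd : diffs (nv (n + 3) y a 0) (lst (fun i => nv (n + 3) y a (i + 1)) M) =
          lst (fun i => nv (n + 3) y a (i + 1) - nv (n + 3) y a i) M := diffs_lst _ _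
      have hv : ∀ z, z < M → nv (n + 3) y a (z + 1) - nv (n + 3) y a z =
          val (n + 2) (nxt y) (fun j => a (j + 1)) z := by
        intro z hz
        exact nv_sub (n + 2) (M + 1) y a h z (by omega)
      have h2 := ih M (nxt y) (fun j => a (j + 1)) h.nxt hg.2.2
      have h3 : sig (lst (fun i => nv (n + 3) y a (i + 1) - nv (n + 3) y a i) M) =
          sig (lst (val (n + 2) (nxt y) (fun j => a (j + 1))) M) :=
        sig_scale _ _ (fun _ => 1) _ (fun _ _ => one_pos) fun z hz => by
          rw [hv z hz]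
          simp
      have h4 := sig_diffs (nv (n + 3) y a 0) (lst (fun i => nv (n + 3) y a (i + 1)) M) hnd (by
        rw [hd]
        refine ndN_lst _ _ fun z hz => ?_
        rw [hv z (by omega), hv (z + 1) (by omega)]
        exact NA_of_D (hg.2.2.2.1 z hz))
      rw [hd, h3] at h4
      have h5 : lst (nv (n + 3) y a) (M + 1) = nv (n + 3) y a 0 :: lst (fun i => nv (n + 3) y a (i + 1)) M := rfl
      rw [h5]
      push_cast
      linarith

end COT
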