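import Pool.Agent.COT.Ftp

/-! # Generic images are dense; the bound for the changes of sign -/

set_option autoImplicit false

open Real ComplexConjugate

noncomputable section

namespace COT

theorem exists_avoid (s : Set ℝ) (hs : s.Finite) (ε : ℝ) (hε : 0 < ε) : ∃ t, 0 < t ∧ t < ε ∧ t ∉ s := by
  obtain ⟨t, ht⟩ := ((Set.Ioo_infinite hε).sdiff hs).nonempty
  exact ⟨t, ht.1.1, ht.1.2, ht.2⟩

theorem exists_dir (K : ℕ) (e : ℕ → ℂ) (he : ∀ z < K, e z ≠ 0) :
    ∃ w : ℂ, w ≠ 0 ∧ ∀ z < K, D w (e z) ≠ 0 := by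
  have hfin : ({s : ℝ | ∃ z < K, (e z).im - s * (e z).re = 0}).Finite := by
    have : {s : ℝ | ∃ z < K, (e z).im - s * (e z).re = 0} ⊆
        (fun z => (e z).im / (e z).re) '' (Set.Iio K) := by
      rintro s ⟨z, hz, hs⟩
      refine ⟨z, hz, ?_⟩
      have hre : (e z).re ≠ 0 := by
        intro h0
        apply he z hz
        apply Complex.ext
        · simpa using h0
        · rw [h0, mul_zero, sub_zero] at hs
          simpa using hs
      show (e z).im / (e z).re = s
      rw [div_eq_iff hre]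
      linarith
    exact ((Set.finite_Iio K).image _).subset this
  obtain ⟨s, _, _, hs⟩ := exists_avoid _ hfin 1 one_pos
  refine ⟨⟨1, s⟩, ?_, fun z hz h0 => hs ⟨z, hz, ?_⟩⟩
  · intro h
    have := congrArg Complex.re h
    simp at this
  · rw [D_eq] at h0
    simpa using h0

theorem val_zero_eq (n : ℕ) (y : ℕ → ℕ → ℝ) (b : ℕ → ℂ) (z : ℕ) (h : y z 0 ≠ 0) :
    val n y b z = (y z 0 : ℝ) * nv n y b z := by
  have h0 : (y z 0 : ℂ) ≠ 0 := by exact_mod_cast h
  rw [nv]
  push_cast
  field_simp

theorem D_val (n M : ℕ) (y : ℕ → ℕ → ℝ) (b : ℕ → ℂ) (h : FTP (n + 1) M y) (z : ℕ) (hz : z + 1 < M) :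
    D (val (n + 1) y b z) (val (n + 1) y b (z + 1)) =
      y z 0 * y (z + 1) 0 * D (nv (n + 1) y b z) (val n (nxt y) (fun j => b (j + 1)) z) := by
  have h1 := h.pos (z := z) (by omega)
  have h2 := h.pos hz
  rw [val_zero_eq (n + 1) y b z h1.ne', val_zero_eq (n + 1) y b (z + 1) h2.ne', D_scale,
    ← nv_sub n M y b h z hz, D_sub_right, D_self, sub_zero]

theorem gen_dense (n : ℕ) : ∀ (M : ℕ) (y : ℕ → ℕ → ℝ) (a : ℕ → ℂ) (ε : ℝ), FTP (n + 1) M y → 0 < ε →
    ∃ b : ℕ → ℂ, (∀ j, dist (b j) (a j) < ε) ∧ Gen (n + 1) M y b ∧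
      ∀ z < M, val (n + 1) y b z ≠ 0 := by
  induction n with
  | zero =>
    intro M y a ε h hε
    obtain ⟨t, ht0, ht1, ht⟩ := exists_avoid {t : ℝ | a 0 + t = 0} (by
      have : {t : ℝ | a 0 + t = 0} ⊆ {-(a 0).re} := by
        intro t ht
        have := congrArg Complex.re (show a 0 + t = 0 from ht)
        simp only [Complex.add_re, Complex.ofReal_re, Complex.zero_re] at this
        simp only [Set.mem_singleton_iff]
        linarith
      exact (Set.finite_singleton _).subset this) ε hε
    have hv : ∀ z < M, val 1 y (fun j => a j + (t : ℂ)) z ≠ 0 := by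
      intro z hz
      have h1 : (y z 0 : ℂ) ≠ 0 := by exact_mod_cast (h.pos hz).ne'
      simp only [val, Finset.sum_range_one]
      exact mul_ne_zero h1 ht
    refine ⟨fun j => a j + (t : ℂ), fun j => ?_, hv, hv⟩
    rw [dist_eq_norm]
    simp only [add_sub_cancel_left, Complex.norm_real, Real.norm_eq_abs, abs_of_pos ht0]
    exact ht1
  | succ n ih =>
    intro M y a ε h hε
    obtain ⟨b', hb1, hb2, hb3⟩ := ih (M - 1) (nxt y) (fun j => a (j + 1)) ε h.nxt hε
    obtain ⟨w, hw0, hw⟩ := exists_dir (M - 1) (val (n + 1) (nxt y) b') hb3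
    let b : ℝ → ℕ → ℂ := fun t j => if j = 0 then a 0 + t * w else b' (j - 1)
    have hbs : ∀ t, (fun j => b t (j + 1)) = b' := by
      intro t
      funext j
      simp [b]
    let c : ℕ → ℂ := fun z => a 0 + ∑ j ∈ Finset.range (n + 1), ((y z (j + 1) / y z 0 : ℝ) : ℂ) * b' j
    have hnv : ∀ t z, z < M → nv (n + 2) y (b t) z = c z + t * w := by
      intro t z hz
      rw [nv_eq (n + 1) M y (b t) h z hz]
      simp only [c, b, if_true, Nat.add_eq_zero_iff, one_ne_zero, and_false, if_false,
        Nat.add_sub_cancel]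
      ring
    have hbad : ({t : ℝ | (∃ z < M, c z + t * w = 0) ∨
        ∃ z < M - 1, D (c z) (val (n + 1) (nxt y) b' z) + t * D w (val (n + 1) (nxt y) b' z) = 0}).Finite := by
      have h1 : ({t : ℝ | ∃ z < M, c z + t * w = 0}).Finite := by
        have : {t : ℝ | ∃ z < M, c z + t * w = 0} ⊆ (fun z => (-c z / w).re) '' (Set.Iio M) := by
          rintro t ⟨z, hz, ht⟩
          refine ⟨z, hz, ?_⟩
          have : -c z / w = t := by
            rw [div_eq_iff hw0]
            linear_combination -ht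
          show (-c z / w).re = t
          rw [this, Complex.ofReal_re]
        exact ((Set.finite_Iio M).image _).subset this
      have h2 : ({t : ℝ | ∃ z < M - 1, D (c z) (val (n + 1) (nxt y) b' z) +
          t * D w (val (n + 1) (nxt y) b' z) = 0}).Finite := by
        have : {t : ℝ | ∃ z < M - 1, D (c z) (val (n + 1) (nxt y) b' z) +
            t * D w (val (n + 1) (nxt y) b' z) = 0} ⊆
            (fun z => -D (c z) (val (n + 1) (nxt y) b' z) / D w (val (n + 1) (nxt y) b' z)) ''
              (Set.Iio (M - 1)) := by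
          rintro t ⟨z, hz, ht⟩
          refine ⟨z, hz, ?_⟩
          show -D (c z) (val (n + 1) (nxt y) b' z) / D w (val (n + 1) (nxt y) b' z) = t
          rw [div_eq_iff (hw z hz)]
          linarith
        exact ((Set.finite_Iio (M - 1)).image _).subset this
      exact h1.union h2
    obtain ⟨t, ht0, ht1, ht⟩ := exists_avoid _ hbad (ε / ‖w‖) (div_pos hε (norm_pos_iff.2 hw0))
    have hv : ∀ z < M, val (n + 2) y (b t) z ≠ 0 := by
      intro z hz h0
      apply ht
      left
      refine ⟨z, hz, ?_⟩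
      rw [← hnv t z hz, nv, h0, mul_zero]
    refine ⟨b t, fun j => ?_, ⟨hv, fun z hz h0 => ?_, ?_⟩, hv⟩
    · rcases j with _ | j
      · simp only [b, if_true, dist_eq_norm, add_sub_cancel_left, norm_mul, Complex.norm_real,
          Real.norm_eq_abs, abs_of_pos ht0]
        rwa [lt_div_iff₀ (norm_pos_iff.2 hw0)] at ht1
      · simp only [b, Nat.add_eq_zero_iff, one_ne_zero, and_false, if_false, Nat.add_sub_cancel]
        exact hb1 j
    · apply ht
      right
      refine ⟨z, by omega, ?_⟩
      rw [D_val (n + 1) M y (b t) h z hz, hbs t, hnv t z (by omega), D_add_left] at h0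
      have h1 := h.pos (z := z) (by omega)
      have h2 := h.pos hz
      rcases mul_eq_zero.1 h0 with h3 | h3
      · exact absurd h3 (mul_pos h1 h2).ne'
      · rw [show (t : ℂ) * w = ((t : ℝ) : ℂ) * w from rfl] at h3
        have h4 := D_scale w (val (n + 1) (nxt y) b' z) t 1
        rw [Complex.ofReal_one, one_mul, mul_one] at h4
        rw [h4] at h3
        exact h3
    · rw [hbs t]
      exact hb2

/-- the list of the determinants of consecutive vectors -/
def Ds : List ℂ → List ℝ
  | u :: v :: l => D u v :: Ds (v :: l)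
  | _ => []

theorem chg_congr (l1 l2 : List ℝ) (h : List.Forall₂ (fun a b => 0 < a * b) l1 l2) : chg l1 = chg l2 := by
  induction h with
  | nil => rfl
  | @cons a b l1 l2 hab hl ih =>
    cases hl with
    | nil => rfl
    | @cons c d l1 l2 hcd hl =>
      rw [chg, chg, ih]
      congr 1
      have h4 : a * c < 0 ↔ b * d < 0 := by
        have h5 : 0 < (a * c) * (b * d) := by nlinarith [mul_pos hab hcd]
        constructor
        · intro h6
          by_contra h7
          exact absurd (mul_nonpos_of_nonpos_of_nonneg h6.le (not_lt.1 h7)) (not_le.2 h5)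
        · intro h6
          by_contra h7
          exact absurd (mul_nonpos_of_nonneg_of_nonpos (not_lt.1 h7) h6.le) (not_le.2 h5)
      simp only [h4]

theorem Ds_angs (l : List ℂ) (h : ndD l) : List.Forall₂ (fun a b => 0 < a * b) (Ds l) (angs l) := by
  match l, h with
  | [], _ => exact List.Forall₂.nil
  | [u], _ => exact List.Forall₂.nil
  | u :: v :: l, h =>
    refine List.Forall₂.cons ?_ (Ds_angs (v :: l) h.2)
    rcases h.1.lt_or_gt with h1 | h1
    · exact mul_pos_of_neg_of_neg h1 (ang_neg h1)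
    · exact mul_pos h1 (ang_pos h1)

theorem angs_ne_zero (l : List ℂ) (h : ndD l) : ∀ d ∈ angs l, d ≠ 0 := by
  match l, h with
  | [], _ => simp [angs]
  | [u], _ => simp [angs]
  | u :: v :: l, h =>
    intro d hd
    have hd' : d ∈ ang u v :: angs (v :: l) := hd
    rcases List.mem_cons.1 hd' with rfl | hd'
    · rcases h.1.lt_or_gt with h1 | h1
      · exact (ang_neg h1).ne
      · exact (ang_pos h1).ne'
    · exact angs_ne_zero (v :: l) h.2 d hd'

theorem chg_Ds_le_sig (l : List ℂ) (h : ndD l) : (chg (Ds l) : ℤ) ≤ sig l := by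
  rw [chg_congr _ _ (Ds_angs l h)]
  exact chg_le_pot_zero _ (angs_ne_zero l h)

theorem Ds_lst (v w : ℕ → ℂ) (M : ℕ)
    (h : ∀ z, z + 1 < M → 0 < D (v z) (v (z + 1)) * D (w z) (w (z + 1))) :
    List.Forall₂ (fun a b => 0 < a * b) (Ds (lst v M)) (Ds (lst w M)) := by
  induction M generalizing v w with
  | zero => exact List.Forall₂.nil
  | succ M ih =>
    cases M with
    | zero => exact List.Forall₂.nil
    | succ M =>
      exact List.Forall₂.cons (h 0 (by omega))
        (ih (fun i => v (i + 1)) (fun i => w (i + 1)) fun z hz => h (z + 1) (by omega))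

/-- POT: the determinants of consecutive vectors of an image in the plane of a list with positive initial minors
in `R ^ (n + 2)` change their sign at most `2 n` times -/
theorem chg_le (n M : ℕ) (y : ℕ → ℕ → ℝ) (a : ℕ → ℂ) (h : FTP (n + 2) M y)
    (hD : ∀ z, z + 1 < M → D (val (n + 2) y a z) (val (n + 2) y a (z + 1)) ≠ 0) :
    chg (Ds (lst (val (n + 2) y a) M)) ≤ 2 * n := by
  have h1 : ∀ k : ℕ, ∃ b : ℕ → ℂ, (∀ j, dist (b j) (a j) < 1 / ((k : ℝ) + 1)) ∧ Gen (n + 2) M y b ∧
      ∀ z < M, val (n + 2) y b z ≠ 0 := fun k => gen_dense (n + 1) M y a _ h (by positivity)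
  choose b hb1 hb2 hb3 using h1
  have h2 : Filter.Tendsto b Filter.atTop (nhds a) := by
    rw [tendsto_pi_nhds]
    intro j
    rw [tendsto_iff_dist_tendsto_zero]
    exact squeeze_zero (fun _ => dist_nonneg) (fun k => (hb1 k j).le) tendsto_one_div_add_atTop_nhds_zero_nat
  have h3 : ∀ z, Continuous fun x : ℕ → ℂ => val (n + 2) y x z := by
    intro z
    unfold val
    fun_prop
  have h4 : ∀ z, Continuous fun x : ℕ → ℂ => D (val (n + 2) y x z) (val (n + 2) y x (z + 1)) := by
    intro z
    have h5 := h3 z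
    have h6 := h3 (z + 1)
    unfold D
    fun_prop
  have h5 : ∀ z, z + 1 < M → ∀ᶠ k in Filter.atTop,
      0 < D (val (n + 2) y a z) (val (n + 2) y a (z + 1)) *
        D (val (n + 2) y (b k) z) (val (n + 2) y (b k) (z + 1)) := by
    intro z hz
    have h6 : Filter.Tendsto (fun k => D (val (n + 2) y a z) (val (n + 2) y a (z + 1)) *
        D (val (n + 2) y (b k) z) (val (n + 2) y (b k) (z + 1))) Filter.atTop
        (nhds (D (val (n + 2) y a z) (val (n + 2) y a (z + 1)) *
          D (val (n + 2) y a z) (val (n + 2) y a (z + 1)))) :=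
      (((h4 z).tendsto a).comp h2).const_mul _
    exact h6.eventually (lt_mem_nhds (mul_self_pos.2 (hD z hz)))
  have h6 : ∀ᶠ k in Filter.atTop, ∀ z ∈ Finset.range M, z + 1 < M →
      0 < D (val (n + 2) y a z) (val (n + 2) y a (z + 1)) *
        D (val (n + 2) y (b k) z) (val (n + 2) y (b k) (z + 1)) := by
    rw [Filter.eventually_all_finset]
    intro z _
    by_cases hz : z + 1 < M
    · exact (h5 z hz).mono fun k hk _ => hk
    · exact Filter.Eventually.of_forall fun k hz' => absurd hz' hz
  obtain ⟨k, hk⟩ := h6.exists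
  have h7 : chg (Ds (lst (val (n + 2) y a) M)) = chg (Ds (lst (val (n + 2) y (b k)) M)) :=
    chg_congr _ _ (Ds_lst _ _ M fun z hz => hk z (Finset.mem_range.2 (by omega)) hz)
  have h8 : ndD (lst (val (n + 2) y (b k)) M) :=
    ndD_lst _ _ fun z hz h0 => by
      have := hk z (Finset.mem_range.2 (by omega)) hz
      rw [h0, mul_zero] at this
      exact lt_irrefl _ this
  have h9 := (chg_Ds_le_sig _ h8).trans (sig_le_of_gen n M y (b k) h (hb2 k))
  rw [h7]
  exact_mod_cast h9

end COT
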