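import Mathlib

/-! # The potential of a sequence of plane vectors

`pot s l`: the potential of the sequence of angles `l`, the current run having the sum `s`. -/

set_option autoImplicit false

open Real ComplexConjugate

noncomputable section

namespace COT

/-- the potential: for each maximal run of constant sign twice the floor of (modulus of the sum) / pi, and one for
each change of sign; `s` is the sum of the current run -/
def pot : ℝ → List ℝ → ℤ
  | s, [] => 2 * ⌊|s| / π⌋
  | s, d :: l => if 0 ≤ s * d then pot (s + d) l else 2 * ⌊|s| / π⌋ + 1 + pot d l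

/-- number of changes of sign of a list of nonzero reals -/
def chg : List ℝ → ℕ
  | [] => 0
  | [_] => 0
  | a :: b :: l => (if a * b < 0 then 1 else 0) + chg (b :: l)

theorem pot_nil (s : ℝ) : pot s [] = 2 * ⌊|s| / π⌋ := rfl

theorem pot_cons_pos {s d : ℝ} {l : List ℝ} (h : 0 ≤ s * d) : pot s (d :: l) = pot (s + d) l := by
  rw [pot, if_pos h]

theorem pot_cons_neg {s d : ℝ} {l : List ℝ} (h : s * d < 0) :
    pot s (d :: l) = 2 * ⌊|s| / π⌋ + 1 + pot d l := by
  rw [pot, if_neg (not_le.2 h)]

theorem pot_neg (l : List ℝ) : ∀ s : ℝ, pot (-s) (l.map fun d => -d) = pot s l := by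
  induction l with
  | nil => intro s; simp [pot_nil]
  | cons d l ih =>
    intro s
    rw [List.map_cons]
    by_cases h : 0 ≤ s * d
    · rw [pot_cons_pos h, pot_cons_pos (by simpa using h), ← ih (s + d)]
      congr 1
      ring
    · rw [pot_cons_neg (not_le.1 h), pot_cons_neg (by simpa using not_le.1 h), ← ih d, abs_neg]

theorem fl_mono {s t : ℝ} (h : s ≤ t) : ⌊s / π⌋ ≤ ⌊t / π⌋ :=
  Int.floor_mono (div_le_div_of_nonneg_right h pi_pos.le)

theorem fl_nonneg {s : ℝ} (h : 0 ≤ s) : 0 ≤ ⌊s / π⌋ :=
  Int.floor_nonneg.2 (div_nonneg h pi_pos.le)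

theorem fl_zero {s : ℝ} (h : 0 ≤ s) (h' : s < π) : ⌊s / π⌋ = 0 :=
  Int.floor_eq_zero_iff.2 ⟨div_nonneg h pi_pos.le, (div_lt_one pi_pos).2 h'⟩

theorem fl_add_pi (s : ℝ) : ⌊(s + π) / π⌋ = ⌊s / π⌋ + 1 := by
  rw [add_div, div_self pi_ne_zero, Int.floor_add_one]

theorem fl_add_le (s t : ℝ) : ⌊(s + t) / π⌋ ≤ ⌊s / π⌋ + ⌊t / π⌋ + 1 := by
  rw [add_div]
  have h1 := Int.floor_le (s / π)
  have h2 := Int.lt_floor_add_one (s / π)
  have h3 := Int.lt_floor_add_one (t / π)
  have h4 : ⌊s / π + t / π⌋ < ⌊s / π⌋ + ⌊t / π⌋ + 2 := by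
    rw [Int.floor_lt]
    push_cast
    linarith
  omega

theorem le_fl_add (s t : ℝ) : ⌊s / π⌋ + ⌊t / π⌋ ≤ ⌊(s + t) / π⌋ := by
  rw [add_div]
  exact Int.le_floor_add _ _

/-- monotonicity in the current sum -/
theorem pot_mono (l : List ℝ) : ∀ s t : ℝ, 0 ≤ s → s ≤ t → pot s l ≤ pot t l := by
  induction l with
  | nil =>
    intro s t hs hst
    rw [pot_nil, pot_nil, abs_of_nonneg hs, abs_of_nonneg (hs.trans hst)]
    have := fl_mono hst
    omega
  | cons d l ih =>
    intro s t hs hst
    rcases le_or_gt 0 d with hd | hd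
    · rw [pot_cons_pos (mul_nonneg hs hd), pot_cons_pos (mul_nonneg (hs.trans hst) hd)]
      exact ih _ _ (by linarith) (by linarith)
    · rcases hs.eq_or_lt with rfl | hs'
      · rw [pot_cons_pos (by simp), zero_add]
        rcases (hst : (0 : ℝ) ≤ t).eq_or_lt with rfl | ht
        · rw [pot_cons_pos (by simp), zero_add]
        · rw [pot_cons_neg (mul_neg_of_pos_of_neg ht hd)]
          have := fl_nonneg (abs_nonneg t)
          omega
      · rw [pot_cons_neg (mul_neg_of_pos_of_neg hs' hd),
          pot_cons_neg (mul_neg_of_pos_of_neg (hs'.trans_le hst) hd), abs_of_nonneg hs,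
          abs_of_nonneg (hs.trans hst)]
        have := fl_mono hst
        omega

theorem pot_mono_neg (l : List ℝ) (s t : ℝ) (hs : s ≤ 0) (hst : t ≤ s) : pot s l ≤ pot t l := by
  rw [← pot_neg l s, ← pot_neg l t]
  exact pot_mono _ _ _ (by linarith) (by linarith)

theorem pot_add_le (l : List ℝ) : ∀ u s : ℝ, 0 ≤ u → 0 ≤ s →
    pot (u + s) l ≤ 2 * ⌊u / π⌋ + 2 + pot s l := by
  induction l with
  | nil =>
    intro u s hu hs
    rw [pot_nil, pot_nil, abs_of_nonneg hs, abs_of_nonneg (add_nonneg hu hs)]
    have := fl_add_le u s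
    omega
  | cons d l ih =>
    intro u s hu hs
    rcases le_or_gt 0 d with hd | hd
    · rw [pot_cons_pos (mul_nonneg hs hd), pot_cons_pos (mul_nonneg (add_nonneg hu hs) hd), add_assoc]
      exact ih _ _ hu (by linarith)
    · have h0 := fl_nonneg hu
      rcases hs.eq_or_lt with rfl | hs'
      · rw [add_zero, pot_cons_pos (show (0 : ℝ) ≤ 0 * d by simp), zero_add]
        rcases hu.eq_or_lt with rfl | hu'
        · rw [pot_cons_pos (by simp), zero_add]
          omega
        · rw [pot_cons_neg (mul_neg_of_pos_of_neg hu' hd), abs_of_nonneg hu]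
          omega
      · rw [pot_cons_neg (mul_neg_of_pos_of_neg hs' hd),
          pot_cons_neg (mul_neg_of_pos_of_neg (by linarith) hd), abs_of_nonneg hs,
          abs_of_nonneg (add_nonneg hu hs)]
        have := fl_add_le u s
        omega

theorem pot_add_le_neg (l : List ℝ) (u s : ℝ) (hu : u ≤ 0) (hs : s ≤ 0) :
    pot (u + s) l ≤ 2 * ⌊-u / π⌋ + 2 + pot s l := by
  have := pot_add_le (l.map fun d => -d) (-u) (-s) (by linarith) (by linarith)
  rw [pot_neg l s, show -u + -s = -(u + s) by ring, pot_neg l (u + s)] at this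
  exact this

theorem le_pot_add (l : List ℝ) : ∀ u s : ℝ, 0 ≤ u → 0 ≤ s →
    2 * ⌊u / π⌋ + pot s l ≤ pot (u + s) l := by
  induction l with
  | nil =>
    intro u s hu hs
    rw [pot_nil, pot_nil, abs_of_nonneg hs, abs_of_nonneg (add_nonneg hu hs)]
    have := le_fl_add u s
    omega
  | cons d l ih =>
    intro u s hu hs
    rcases le_or_gt 0 d with hd | hd
    · rw [pot_cons_pos (mul_nonneg hs hd), pot_cons_pos (mul_nonneg (add_nonneg hu hs) hd), add_assoc]
      exact ih _ _ hu (by linarith)
    · have h0 := fl_nonneg hu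
      rcases hs.eq_or_lt with rfl | hs'
      · rw [add_zero, pot_cons_pos (show (0 : ℝ) ≤ 0 * d by simp), zero_add]
        rcases hu.eq_or_lt with rfl | hu'
        · rw [pot_cons_pos (by simp), zero_add]
          simp
        · rw [pot_cons_neg (mul_neg_of_pos_of_neg hu' hd), abs_of_nonneg hu]
          omega
      · rw [pot_cons_neg (mul_neg_of_pos_of_neg hs' hd),
          pot_cons_neg (mul_neg_of_pos_of_neg (by linarith) hd), abs_of_nonneg hs,
          abs_of_nonneg (add_nonneg hu hs)]
        have := le_fl_add u s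
        omega

/-- crossing of `pi` -/
theorem pot_cross (l : List ℝ) : ∀ t x b : ℝ, 0 ≤ t → t + π ≤ x → -π < b → b < 0 →
    2 * ⌊t / π⌋ + 1 + pot b l ≤ pot x l := by
  intro t x b ht hx hb hb'
  have hpi := pi_pos
  have h1 : ⌊t / π⌋ + 1 ≤ ⌊x / π⌋ := by
    rw [← fl_add_pi]
    exact fl_mono hx
  have hfb : ⌊-b / π⌋ = 0 := fl_zero (by linarith) (by linarith)
  induction l with
  | nil =>
    rw [pot_nil, pot_nil, abs_of_nonneg (show 0 ≤ x by linarith), abs_of_neg hb', hfb]
    omega
  | cons d l ih =>
    rcases lt_trichotomy d 0 with hd | rfl | hd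
    · rw [pot_cons_pos (mul_nonneg_of_nonpos_of_nonpos hb'.le hd.le),
        pot_cons_neg (mul_neg_of_pos_of_neg (by linarith) hd), abs_of_nonneg (show 0 ≤ x by linarith)]
      have h2 := pot_add_le_neg l b d hb'.le hd.le
      omega
    · rw [pot_cons_pos (by simp), pot_cons_pos (by simp), add_zero, add_zero]
      exact ih
    · rw [pot_cons_neg (mul_neg_of_neg_of_pos hb' hd), pot_cons_pos (mul_nonneg (by linarith) hd.le),
        abs_of_neg hb', hfb]
      have h2 := le_pot_add l x d (by linarith) hd.le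
      omega

/-- crossing of `0` -/
theorem pot_merge (l : List ℝ) : ∀ x t b : ℝ, 0 < x → x ≤ t → -π < b → b < 0 →
    pot x l ≤ 2 * ⌊t / π⌋ + 1 + pot b l := by
  intro x t b hx hxt hb hb'
  have hpi := pi_pos
  have h1 := fl_mono hxt
  have hfb : ⌊-b / π⌋ = 0 := fl_zero (by linarith) (by linarith)
  induction l with
  | nil =>
    rw [pot_nil, pot_nil, abs_of_pos hx, abs_of_neg hb', hfb]
    omega
  | cons d l ih =>
    rcases lt_trichotomy d 0 with hd | rfl | hd
    · rw [pot_cons_neg (mul_neg_of_pos_of_neg hx hd),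
        pot_cons_pos (mul_nonneg_of_nonpos_of_nonpos hb'.le hd.le), abs_of_pos hx]
      have := pot_mono_neg l d (b + d) hd.le (by linarith)
      omega
    · rw [pot_cons_pos (by simp), pot_cons_pos (by simp), add_zero, add_zero]
      exact ih
    · rw [pot_cons_pos (mul_nonneg hx.le hd.le), pot_cons_neg (mul_neg_of_neg_of_pos hb' hd),
        abs_of_neg hb', hfb]
      have := pot_add_le l x d hx.le hd.le
      omega

/-- the elementary step at the last place -/
theorem pot_last_pos (s a a' : ℝ) (h : 0 < a') (h' : a' ≤ a) : pot s [a'] ≤ pot s [a] := by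
  rcases le_or_gt 0 s with hs | hs
  · rw [pot_cons_pos (mul_nonneg hs h.le), pot_cons_pos (mul_nonneg hs (h.le.trans h'))]
    exact pot_mono _ _ _ (by linarith) (by linarith)
  · rw [pot_cons_neg (mul_neg_of_neg_of_pos hs h), pot_cons_neg (mul_neg_of_neg_of_pos hs (h.trans_le h'))]
    have := pot_mono [] a' a h.le h'
    omega

theorem pot_step_aux (t a b th a' b' : ℝ) (l : List ℝ) (ht : 0 ≤ t) (hth : 0 < th) (ha' : 0 < a')
    (haa : a = a' + th) (ha : a < π) (hb1 : -π < b) (hb2 : b < π)
    (hb' : (b' = b + th ∧ b' < π) ∨ (b' = b + th - 2 * π ∧ -π < b')) :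
    pot (t + a') (b' :: l) ≤ pot (t + a) (b :: l) := by
  have hpi := pi_pos
  rcases lt_or_ge b 0 with hbn | hbp
  · rw [pot_cons_neg (mul_neg_of_pos_of_neg (show 0 < t + a by linarith) hbn),
      abs_of_nonneg (show 0 ≤ t + a by linarith)]
    rcases hb' with ⟨h1, h2⟩ | ⟨h1, h2⟩
    · rcases lt_or_ge b' 0 with h4 | h4
      · rw [pot_cons_neg (mul_neg_of_pos_of_neg (by linarith) h4),
          abs_of_nonneg (show 0 ≤ t + a' by linarith)]
        have h5 := fl_mono (show t + a' ≤ t + a by linarith)
        have h6 := pot_mono_neg l b' b h4.le (by linarith)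
        omega
      · rw [pot_cons_pos (mul_nonneg (by linarith) h4)]
        exact pot_merge l _ _ _ (by linarith) (by linarith) hb1 hbn
    · linarith
  · rw [pot_cons_pos (mul_nonneg (by linarith) hbp)]
    rcases hb' with ⟨h1, h2⟩ | ⟨h1, h2⟩
    · rw [pot_cons_pos (mul_nonneg (by linarith) (by linarith))]
      apply le_of_eq
      congr 1
      linarith
    · rw [pot_cons_neg (mul_neg_of_pos_of_neg (by linarith) (by linarith)),
        abs_of_nonneg (show 0 ≤ t + a' by linarith)]
      exact pot_cross l _ _ _ (by linarith) (by linarith) h2 (by linarith)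

/-- the elementary step, positive angle -/
theorem pot_step_pos (s a b th a' b' : ℝ) (l : List ℝ) (hth : 0 < th) (ha' : 0 < a')
    (haa : a = a' + th) (ha : a < π) (hb1 : -π < b) (hb2 : b < π)
    (hb' : (b' = b + th ∧ b' < π) ∨ (b' = b + th - 2 * π ∧ -π < b')) :
    pot s (a' :: b' :: l) ≤ pot s (a :: b :: l) := by
  rcases le_or_gt 0 s with hs | hs
  · rw [pot_cons_pos (mul_nonneg hs ha'.le), pot_cons_pos (mul_nonneg hs (show 0 ≤ a by linarith))]
    exact pot_step_aux s a b th a' b' l hs hth ha' haa ha hb1 hb2 hb'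
  · rw [pot_cons_neg (mul_neg_of_neg_of_pos hs ha'),
      pot_cons_neg (mul_neg_of_neg_of_pos hs (show 0 < a by linarith))]
    have := pot_step_aux 0 a b th a' b' l le_rfl hth ha' haa ha hb1 hb2 hb'
    rw [zero_add, zero_add] at this
    omega

/-- the elementary step, negative angle -/
theorem pot_step_neg (s a b th a' b' : ℝ) (l : List ℝ) (hth : th < 0) (ha' : a' < 0)
    (haa : a = a' + th) (ha : -π < a) (hb1 : -π < b) (hb2 : b < π)
    (hb' : (b' = b + th ∧ -π < b') ∨ (b' = b + th + 2 * π ∧ b' < π)) :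
    pot s (a' :: b' :: l) ≤ pot s (a :: b :: l) := by
  rw [← pot_neg (a' :: b' :: l) s, ← pot_neg (a :: b :: l) s]
  simp only [List.map_cons]
  refine pot_step_pos (-s) (-a) (-b) (-th) (-a') (-b') _ (by linarith) (by linarith) (by linarith)
    (by linarith) (by linarith) (by linarith) ?_
  rcases hb' with ⟨h1, h2⟩ | ⟨h1, h2⟩
  · exact Or.inl ⟨by linarith, by linarith⟩
  · exact Or.inr ⟨by linarith, by linarith⟩

theorem pot_last_neg (s a a' : ℝ) (h : a' < 0) (h' : a ≤ a') : pot s [a'] ≤ pot s [a] := by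
  rw [← pot_neg [a'] s, ← pot_neg [a] s]
  simp only [List.map_cons, List.map_nil]
  exact pot_last_pos _ _ _ (by linarith) (by linarith)

/-- only zero angles -/
theorem pot_zeros (l : List ℝ) (hl : ∀ d ∈ l, d = 0) : ∀ s : ℝ, pot s l = 2 * ⌊|s| / π⌋ := by
  induction l with
  | nil => intro s; rfl
  | cons d l ih =>
    intro s
    have hd : d = 0 := hl d (by simp)
    rw [hd, pot_cons_pos (by simp), add_zero]
    exact ih (fun e he => hl e (by simp [he])) s

/-- the potential bounds the number of changes of sign -/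
theorem chg_le_pot (l : List ℝ) : ∀ s : ℝ, s ≠ 0 → (∀ d ∈ l, d ≠ 0) → (chg (s :: l) : ℤ) ≤ pot s l := by
  induction l with
  | nil =>
    intro s _ _
    rw [pot_nil]
    have := fl_nonneg (abs_nonneg s)
    simp only [chg]
    push_cast
    omega
  | cons d l ih =>
    intro s hs hl
    have hd : d ≠ 0 := hl d (by simp)
    have hl' : ∀ e ∈ l, e ≠ 0 := fun e he => hl e (by simp [he])
    rw [chg]
    rcases (mul_ne_zero hs hd).lt_or_gt with h | h
    · rw [if_pos h, pot_cons_neg h]
      have h1 := ih d hd hl'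
      have := fl_nonneg (abs_nonneg s)
      push_cast
      omega
    · rw [if_neg (not_lt.2 h.le), pot_cons_pos h.le, zero_add]
      have h2 : s + d ≠ 0 := by
        rcases hs.lt_or_gt with h3 | h3
        · have : d < 0 := by
            by_contra h4
            exact absurd (mul_nonpos_of_nonpos_of_nonneg h3.le (not_lt.1 h4)) (not_le.2 h)
          linarith
        · have : 0 < d := by
            by_contra h4
            exact absurd (mul_nonpos_of_nonneg_of_nonpos h3.le (not_lt.1 h4)) (not_le.2 h)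
          linarith
      have h3 : chg (d :: l) = chg ((s + d) :: l) := by
        cases l with
        | nil => rfl
        | cons e l =>
          rw [chg, chg]
          congr 1
          have h4 : d * e < 0 ↔ (s + d) * e < 0 := by
            have h5 : 0 < (s + d) * d := by nlinarith [mul_self_pos.2 hd]
            constructor
            · intro h6
              by_contra h7
              have : 0 ≤ ((s + d) * e) * (d * d) := mul_nonneg (not_lt.1 h7) (mul_self_nonneg d)
              nlinarith [mul_neg_of_pos_of_neg h5 h6]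
            · intro h6
              by_contra h7
              have : 0 ≤ (d * e) * ((s + d) * (s + d)) := mul_nonneg (not_lt.1 h7) (mul_self_nonneg _)
              nlinarith [mul_neg_of_pos_of_neg h5 h6]
          simp only [h4]
      rw [h3]
      exact ih _ h2 hl'

theorem chg_le_pot_zero (l : List ℝ) (hl : ∀ d ∈ l, d ≠ 0) : (chg l : ℤ) ≤ pot 0 l := by
  cases l with
  | nil => simp [chg, pot_nil]
  | cons d l =>
    rw [pot_cons_pos (by simp), zero_add]
    exact chg_le_pot l d (hl d (by simp)) fun e he => hl e (by simp [he])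

theorem pot_congr_right {l1 l2 : List ℝ} (h : ∀ s, pot s l1 ≤ pot s l2) (d : ℝ) (s : ℝ) :
    pot s (d :: l1) ≤ pot s (d :: l2) := by
  by_cases h1 : 0 ≤ s * d
  · rw [pot_cons_pos h1, pot_cons_pos h1]
    exact h _
  · rw [pot_cons_neg (not_le.1 h1), pot_cons_neg (not_le.1 h1)]
    have := h d
    omega

/-- an additional angle in front raises the potential by at most two -/
theorem pot_front (d : ℝ) (l : List ℝ) (h1 : -π < d) (h2 : d < π) : pot 0 (d :: l) ≤ pot 0 l + 2 := by
  rw [pot_cons_pos (by simp), zero_add]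
  have hpi := pi_pos
  have hfd : ⌊|d| / π⌋ = 0 := fl_zero (abs_nonneg d) (abs_lt.2 ⟨h1, h2⟩)
  induction l with
  | nil =>
    rw [pot_nil, pot_nil, abs_zero, hfd]
    simp
  | cons e l ih =>
    rw [pot_cons_pos (show (0 : ℝ) ≤ 0 * e by simp), zero_add]
    by_cases h : 0 ≤ d * e
    · rw [pot_cons_pos h]
      rcases le_or_gt 0 d with hd | hd
      · rcases le_or_gt 0 e with he | he
        · have := pot_add_le l d e hd he
          rw [abs_of_nonneg hd] at hfd
          omega
        · have hd0 : d = 0 := by nlinarith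
          rw [hd0, zero_add]
          omega
      · rcases le_or_gt e 0 with he | he
        · have := pot_add_le_neg l d e hd.le he
          rw [abs_of_neg hd] at hfd
          omega
        · nlinarith
    · rw [pot_cons_neg (not_le.1 h), hfd]
      omega

end COT
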