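import Pool.Agent.COT.Pot

/-! # Angles of a sequence of plane vectors -/

set_option autoImplicit false

open Real ComplexConjugate

noncomputable section

namespace COT

/-- the determinant of two plane vectors -/
def D (u v : ℂ) : ℝ := (conj u * v).im

/-- the angle from `u` to `v` in `(-pi, pi]` -/
def ang (u v : ℂ) : ℝ := Complex.arg (conj u * v)

/-- neither zero nor antiparallel -/
def NA (u v : ℂ) : Prop := conj u * v ∈ Complex.slitPlane

theorem D_eq (u v : ℂ) : D u v = u.re * v.im - u.im * v.re := by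
  simp [D]
  ring

theorem D_self (u : ℂ) : D u u = 0 := by
  rw [D_eq]
  ring

theorem D_swap (u v : ℂ) : D u v = -D v u := by
  rw [D_eq, D_eq]
  ring

theorem D_add_right (u v w : ℂ) : D u (v + w) = D u v + D u w := by
  simp only [D_eq, Complex.add_re, Complex.add_im]
  ring

theorem D_add_left (u v w : ℂ) : D (u + v) w = D u w + D v w := by
  simp only [D_eq, Complex.add_re, Complex.add_im]
  ring

theorem D_sub_right (u v w : ℂ) : D u (v - w) = D u v - D u w := by
  simp only [D_eq, Complex.sub_re, Complex.sub_im]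
  ring

theorem NA_of_D {u v : ℂ} (h : D u v ≠ 0) : NA u v :=
  Complex.mem_slitPlane_iff.2 (Or.inr h)

theorem NA.ne_left {u v : ℂ} (h : NA u v) : u ≠ 0 := by
  rintro rfl
  have := Complex.slitPlane_ne_zero h
  simp at this

theorem NA.ne_right {u v : ℂ} (h : NA u v) : v ≠ 0 := by
  rintro rfl
  have := Complex.slitPlane_ne_zero h
  simp at this

theorem ang_lt {u v : ℂ} (h : NA u v) : ang u v < π :=
  lt_of_le_of_ne (Complex.arg_le_pi _) (Complex.mem_slitPlane_iff_arg.1 h).1

theorem lt_ang (u v : ℂ) : -π < ang u v := Complex.neg_pi_lt_arg _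

theorem ang_pos {u v : ℂ} (h : 0 < D u v) : 0 < ang u v := by
  refine lt_of_le_of_ne (Complex.arg_nonneg_iff.2 h.le) fun h1 => ?_
  have := (Complex.arg_eq_zero_iff.1 h1.symm).2
  exact h.ne' this

theorem ang_neg {u v : ℂ} (h : D u v < 0) : ang u v < 0 := Complex.arg_neg_iff.2 h

theorem ang_add {u v w : ℂ} (h1 : u ≠ 0) (h2 : v ≠ 0) (h3 : w ≠ 0) :
    ∃ k : ℤ, ang u w = ang u v + ang v w + 2 * π * k := by
  have h4 : conj u * v * (conj v * w) = ((Complex.normSq v : ℝ) : ℂ) * (conj u * w) := by
    rw [Complex.normSq_eq_conj_mul_self]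
    ring
  have h5 : Complex.arg (conj u * v * (conj v * w)) = ang u w := by
    rw [h4, Complex.arg_real_mul _ (Complex.normSq_pos.2 h2)]
    rfl
  have h6 := Complex.arg_mul_coe_angle (x := conj u * v) (y := conj v * w)
    (mul_ne_zero (by simpa using h1) h2) (mul_ne_zero (by simpa using h2) h3)
  rw [h5, ← Real.Angle.coe_add] at h6
  obtain ⟨k, hk⟩ := Real.Angle.angle_eq_iff_two_pi_dvd_sub.1 h6
  refine ⟨k, ?_⟩
  have : ang u v = (conj u * v).arg := rfl
  have : ang v w = (conj v * w).arg := rfl
  linarith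

/-- list of the angles of consecutive vectors -/
def angs : List ℂ → List ℝ
  | u :: v :: l => ang u v :: angs (v :: l)
  | _ => []

/-- consecutive vectors independent -/
def ndD : List ℂ → Prop
  | u :: v :: l => D u v ≠ 0 ∧ ndD (v :: l)
  | _ => True

/-- consecutive vectors not antiparallel, nonzero -/
def ndN : List ℂ → Prop
  | u :: v :: l => NA u v ∧ ndN (v :: l)
  | _ => True

/-- differences -/
def diffs : ℂ → List ℂ → List ℂ
  | _, [] => []
  | v, w :: l => (w - v) :: diffs w l

theorem real_aux (k : ℤ) (x : ℝ) (h1 : -(2 * π) < x + 2 * π * k) (h2 : x + 2 * π * k < 2 * π)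
    (h3 : 0 < x) (h4 : x < 2 * π) : k = 0 ∨ k = -1 := by
  have hpi := pi_pos
  have h5 : (k : ℝ) < 1 := by
    by_contra h
    nlinarith
  have h6 : (-2 : ℝ) < k := by
    by_contra h
    nlinarith
  have h7 : k < 1 := by exact_mod_cast h5
  have h8 : -2 < k := by exact_mod_cast h6
  omega

theorem real_aux2 (k : ℤ) (x : ℝ) (h1 : -π < x + 2 * π * k) (h2 : x + 2 * π * k < π)
    (h3 : -π < x) (h4 : x < 2 * π) : k = 0 ∨ k = -1 := by
  have hpi := pi_pos
  have h5 : (k : ℝ) < 1 := by
    by_contra h
    nlinarith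
  have h6 : (-2 : ℝ) < k := by
    by_contra h
    nlinarith
  have h7 : k < 1 := by exact_mod_cast h5
  have h8 : -2 < k := by exact_mod_cast h6
  omega

theorem step_aux {u v : ℂ} (h : 0 < D u v) :
    0 < ang u (v + u) ∧ 0 < ang (v + u) v ∧ ang u v = ang u (v + u) + ang (v + u) v ∧ ang u v < π := by
  have hpi := pi_pos
  have h1 : 0 < D u (v + u) := by rw [D_add_right, D_self]; linarith
  have h2 : 0 < D (v + u) v := by rw [D_add_left, D_self]; linarith
  have a1 := ang_pos h1
  have a2 := ang_pos h2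
  have a3 := ang_pos h
  have b1 := ang_lt (NA_of_D h1.ne')
  have b2 := ang_lt (NA_of_D h2.ne')
  have b3 := ang_lt (NA_of_D h.ne')
  obtain ⟨k, hk⟩ := ang_add (NA_of_D h1.ne').ne_left (NA_of_D h2.ne').ne_left (NA_of_D h2.ne').ne_right
  refine ⟨a1, a2, ?_, b3⟩
  rcases real_aux k (ang u (v + u) + ang (v + u) v) (by linarith) (by linarith) (by linarith)
    (by linarith) with rfl | rfl
  · simpa using hk
  · push_cast at hk
    linarith

theorem step_aux_neg {u v : ℂ} (h : D u v < 0) :
    ang u (v + u) < 0 ∧ ang (v + u) v < 0 ∧ ang u v = ang u (v + u) + ang (v + u) v := by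
  have hpi := pi_pos
  have h1 : D u (v + u) < 0 := by rw [D_add_right, D_self]; linarith
  have h2 : D (v + u) v < 0 := by rw [D_add_left, D_self]; linarith
  have a1 := ang_neg h1
  have a2 := ang_neg h2
  have a3 := ang_neg h
  have b1 := lt_ang u (v + u)
  have b2 := lt_ang (v + u) v
  have b3 := lt_ang u v
  obtain ⟨k, hk⟩ := ang_add (NA_of_D h1.ne).ne_left (NA_of_D h2.ne).ne_left (NA_of_D h2.ne).ne_right
  refine ⟨a1, a2, ?_⟩
  rcases real_aux (-k) (-(ang u (v + u) + ang (v + u) v)) (by push_cast; linarith)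
    (by push_cast; linarith) (by linarith) (by linarith) with h5 | h5
  · have : k = 0 := by omega
    rw [this] at hk
    simpa using hk
  · have : k = 1 := by omega
    rw [this] at hk
    push_cast at hk
    linarith

/-- the elementary step: a vector is replaced by its sum with the preceding one -/
theorem pot_step (s : ℝ) (u v x : ℂ) (l : List ℝ) (h1 : D u v ≠ 0) (h2 : NA v x) (h3 : NA (v + u) x) :
    pot s (ang u (v + u) :: ang (v + u) x :: l) ≤ pot s (ang u v :: ang v x :: l) := by
  have hpi := pi_pos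
  obtain ⟨k, hk⟩ := ang_add h3.ne_left h2.ne_left h2.ne_right
  have c1 := ang_lt h2
  have c2 := lt_ang v x
  have c3 := ang_lt h3
  have c4 := lt_ang (v + u) x
  rcases h1.lt_or_gt with h | h
  · obtain ⟨a1, a2, a3⟩ := step_aux_neg h
    have a4 := lt_ang u v
    refine pot_step_neg s _ _ (ang (v + u) v) _ _ l a2 a1 a3 a4 c2 c1 ?_
    rcases real_aux2 (-k) (-(ang (v + u) v + ang v x)) (by push_cast; linarith)
      (by push_cast; linarith) (by linarith) (by linarith) with h5 | h5
    · have : k = 0 := by omega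
      rw [this] at hk
      push_cast at hk
      exact Or.inl ⟨by linarith, c4⟩
    · have : k = 1 := by omega
      rw [this] at hk
      push_cast at hk
      exact Or.inr ⟨by linarith, c3⟩
  · obtain ⟨a1, a2, a3, a4⟩ := step_aux h
    refine pot_step_pos s _ _ (ang (v + u) v) _ _ l a2 a1 a3 a4 c2 c1 ?_
    rcases real_aux2 k (ang (v + u) v + ang v x) (by linarith) (by linarith) (by linarith)
      (by linarith) with rfl | rfl
    · push_cast at hk
      exact Or.inl ⟨by linarith, c3⟩
    · push_cast at hk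
      exact Or.inr ⟨by linarith, c4⟩

theorem pot_step_last (s : ℝ) (u v : ℂ) (h1 : D u v ≠ 0) :
    pot s [ang u (v + u)] ≤ pot s [ang u v] := by
  rcases h1.lt_or_gt with h | h
  · obtain ⟨a1, a2, a3⟩ := step_aux_neg h
    exact pot_last_neg s _ _ a1 (by linarith)
  · obtain ⟨a1, a2, a3, a4⟩ := step_aux h
    exact pot_last_pos s _ _ a1 (by linarith)

theorem pot_diffs (l : List ℂ) : ∀ (v : ℂ) (s : ℝ), ndD (v :: l) → ndN (diffs v l) →
    pot s (angs (v :: l)) ≤ pot s (angs (v :: diffs v l)) := by
  induction l with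
  | nil => intro v s _ _; exact le_rfl
  | cons w l ih =>
    intro v s h1 h2
    have h3 : D v w ≠ 0 := h1.1
    have h4 : D v (w - v) ≠ 0 := by rwa [D_sub_right, D_self, sub_zero]
    cases l with
    | nil =>
      show pot s [ang v w] ≤ pot s [ang v (w - v)]
      have := pot_step_last s v (w - v) h4
      rwa [sub_add_cancel] at this
    | cons x l =>
      have h5 : D w x ≠ 0 := h1.2.1
      have h6 := pot_congr_right (fun s => ih w s h1.2 h2.2) (ang v w) s
      refine le_trans (show pot s (angs (v :: w :: x :: l)) ≤ _ from h6) ?_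
      show pot s (ang v w :: ang w (x - w) :: angs ((x - w) :: diffs x l)) ≤
        pot s (ang v (w - v) :: ang (w - v) (x - w) :: angs ((x - w) :: diffs x l))
      have h7 := pot_step s v (w - v) (x - w) (angs ((x - w) :: diffs x l)) h4 h2.1
        (by
          rw [sub_add_cancel]
          refine NA_of_D ?_
          rwa [D_sub_right, D_self, sub_zero])
      rwa [sub_add_cancel] at h7

/-- the potential of a list of plane vectors -/
def sig (l : List ℂ) : ℤ := pot 0 (angs l)

theorem sig_diffs (v : ℂ) (l : List ℂ) (h1 : ndD (v :: l)) (h2 : ndN (diffs v l)) :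
    sig (v :: l) ≤ sig (diffs v l) + 2 := by
  refine (pot_diffs l v 0 h1 h2).trans ?_
  cases l with
  | nil =>
    show pot 0 [] ≤ pot 0 [] + 2
    omega
  | cons w l =>
    have h3 : D v (w - v) ≠ 0 := by
      rw [D_sub_right, D_self, sub_zero]
      exact h1.1
    exact pot_front _ _ (lt_ang _ _) (ang_lt (NA_of_D h3))

/-- all differences positively proportional: the potential is zero -/
theorem sig_diffs_parallel (v : ℂ) (l : List ℂ) (h1 : ndD (v :: l)) (h2 : ndN (diffs v l))
    (h3 : ∀ d ∈ angs (diffs v l), d = 0) : sig (v :: l) ≤ 0 := by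
  refine (pot_diffs l v 0 h1 h2).trans ?_
  cases l with
  | nil =>
    show pot 0 [] ≤ 0
    simp [pot_nil]
  | cons w l =>
    have h4 : D v (w - v) ≠ 0 := by
      rw [D_sub_right, D_self, sub_zero]
      exact h1.1
    show pot 0 (ang v (w - v) :: angs ((w - v) :: diffs w l)) ≤ 0
    rw [pot_cons_pos (by simp), zero_add]
    rw [show pot (ang v (w - v)) (angs ((w - v) :: diffs w l)) = _ from pot_zeros _ h3 _,
      fl_zero (abs_nonneg _) (abs_lt.2 ⟨lt_ang _ _, ang_lt (NA_of_D h4)⟩)]
    simp

end COT
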