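import Pool.Agent.COT.Gen

/-! # Totally positive lists: extension at the end, coordinates, the bound for the changes of sign -/

set_option autoImplicit false

open Real ComplexConjugate

noncomputable section

namespace COT

/-- the determinant of the first `n` rows -/
def dt {n : ℕ} (R : ℕ → Fin n → ℝ) : ℝ := (Matrix.of fun i : Fin n => R i).det

/-- all maximal minors with increasing rows (`M` rows) are positive -/
def TP (n M : ℕ) (Y : ℕ → Fin n → ℝ) : Prop :=
  ∀ f : ℕ → ℕ, StrictMonoOn f (Set.Iio n) → (∀ i < n, f i < M) → 0 < dt fun i => Y (f i)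

theorem dt_congr {n : ℕ} {R R' : ℕ → Fin n → ℝ} (h : ∀ i < n, R i = R' i) : dt R = dt R' := by
  unfold dt
  congr 1
  ext i j
  simp only [Matrix.of_apply]
  rw [h i i.2]

theorem dt_update {n : ℕ} (R : ℕ → Fin n → ℝ) (k : ℕ) (hk : k < n) (w : Fin n → ℝ) :
    dt (Function.update R k w) = ((Matrix.of fun i : Fin n => R i).updateRow ⟨k, hk⟩ w).det := by
  unfold dt
  congr 1
  ext i j
  rw [Matrix.updateRow_apply]
  simp only [Matrix.of_apply, Function.update_apply]
  by_cases h : (i : ℕ) = k
  · rw [if_pos h, if_pos (Fin.ext h)]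
  · rw [if_neg h, if_neg (fun h' => h (by rw [h']))]

theorem dt_update_sub {n : ℕ} (R : ℕ → Fin n → ℝ) (k : ℕ) (hk : k < n) (u w : Fin n → ℝ) (ε : ℝ) :
    dt (Function.update R k (u - ε • w)) =
      dt (Function.update R k u) - ε * dt (Function.update R k w) := by
  rw [dt_update R k hk, dt_update R k hk, dt_update R k hk, sub_eq_add_neg, ← neg_smul,
    Matrix.det_updateRow_add, Matrix.det_updateRow_smul]
  ring

theorem dt_eq_zero {n : ℕ} (R : ℕ → Fin n → ℝ) (k l : ℕ) (hk : k < n) (hl : l < n) (hkl : k ≠ l)
    (h : R k = R l) : dt R = 0 := by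
  unfold dt
  refine Matrix.det_zero_of_row_eq (i := ⟨k, hk⟩) (j := ⟨l, hl⟩) (fun h' => hkl (congrArg Fin.val h')) ?_
  exact h

theorem dt_swap {n : ℕ} (R : ℕ → Fin n → ℝ) (k l : ℕ) (hk : k < n) (hl : l < n) (hkl : k ≠ l)
    (u w : Fin n → ℝ) :
    dt (Function.update (Function.update R k u) l w) =
      -dt (Function.update (Function.update R k w) l u) := by
  unfold dt
  have hne : (⟨k, hk⟩ : Fin n) ≠ ⟨l, hl⟩ := fun h' => hkl (congrArg Fin.val h')
  have h1 := Matrix.det_permute (Equiv.swap (⟨k, hk⟩ : Fin n) ⟨l, hl⟩)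
    (Matrix.of fun i : Fin n => Function.update (Function.update R k w) l u i)
  rw [Equiv.Perm.sign_swap hne] at h1
  have h2 : (Matrix.of fun i : Fin n => Function.update (Function.update R k u) l w i) =
      (Matrix.of fun i : Fin n => Function.update (Function.update R k w) l u i).submatrix
        (Equiv.swap (⟨k, hk⟩ : Fin n) ⟨l, hl⟩) id := by
    ext i j
    simp only [Matrix.submatrix_apply, Matrix.of_apply, id]
    by_cases h3 : i = ⟨k, hk⟩
    · subst h3
      rw [Equiv.swap_apply_left, Function.update_of_ne hkl, Function.update_self, Function.update_self]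
    · by_cases h4 : i = ⟨l, hl⟩
      · subst h4
        rw [Equiv.swap_apply_right, Function.update_self, Function.update_of_ne hkl, Function.update_self]
      · have h5 : (i : ℕ) ≠ k := fun h => h3 (Fin.ext h)
        have h6 : (i : ℕ) ≠ l := fun h => h4 (Fin.ext h)
        rw [Equiv.swap_apply_of_ne_of_ne h3 h4, Function.update_of_ne h6, Function.update_of_ne h5,
          Function.update_of_ne h6, Function.update_of_ne h5]
  rw [h2, h1]
  simp

/-- rows: `Y (f i)` for `i < k`, then `c` -/
def rws {n : ℕ} (Y : ℕ → Fin n → ℝ) (k : ℕ) (f : ℕ → ℕ) (c : ℕ → Fin n → ℝ) : ℕ → Fin n → ℝ :=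
  fun i => if i < k then Y (f i) else c i

theorem exists_eps {ι : Type} [Finite ι] (P Q : ι → ℝ) :
    ∃ ε : ℝ, 0 < ε ∧ ∀ g, 0 < P g → 0 < P g - ε * Q g := by
  have h : ∀ᶠ ε : ℝ in nhdsWithin 0 (Set.Ioi 0), ∀ g, 0 < P g → 0 < P g - ε * Q g := by
    rw [Filter.eventually_all]
    intro g
    by_cases hP : 0 < P g
    · have h1 : Filter.Tendsto (fun ε : ℝ => P g - ε * Q g) (nhdsWithin 0 (Set.Ioi 0)) (nhds (P g - 0 * Q g)) :=
        ((continuous_const.sub (continuous_id.mul continuous_const)).tendsto 0).mono_left nhdsWithin_le_nhds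
      rw [zero_mul, sub_zero] at h1
      exact (h1.eventually (lt_mem_nhds hP)).mono fun ε hε _ => hε
    · exact Filter.Eventually.of_forall fun ε h => absurd h hP
  obtain ⟨ε, h1, h2⟩ := (h.and self_mem_nhdsWithin).exists
  exact ⟨ε, h2, h1⟩

theorem ext_aux {n : ℕ} (Y : ℕ → Fin n → ℝ) (k : ℕ) : ∀ (M : ℕ) (c : ℕ → Fin n → ℝ), k + 1 ≤ n → k + 1 ≤ M →
    (∀ f : ℕ → ℕ, StrictMonoOn f (Set.Iio (k + 1)) → (∀ i < k + 1, f i < M) →
      0 < dt (rws Y (k + 1) f c)) →
    ∃ w : Fin n → ℝ, ∀ f : ℕ → ℕ, StrictMonoOn f (Set.Iio k) → (∀ i < k, f i < M) →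
      0 < dt (Function.update (rws Y k f c) k w) := by
  induction k with
  | zero =>
    intro M c hn hM H
    refine ⟨Y 0, fun f _ _ => ?_⟩
    have h1 := H (fun _ => 0) (by
      intro i hi j hj hij
      simp only [Set.mem_Iio] at hi hj
      omega) (fun i _ => by omega)
    rw [dt_congr (R' := rws Y (0 + 1) (fun _ => 0) c)]
    · exact h1
    · intro i _
      simp only [Function.update_apply, rws]
      by_cases h : i = 0
      · rw [if_pos h, if_pos (by omega)]
      · rw [if_neg h, if_neg (by omega), if_neg (by omega)]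
  | succ k ih =>
    intro M c hn hM H
    -- the last vector of the list becomes the vector number `k + 1`
    have hext : ∀ f : ℕ → ℕ, StrictMonoOn f (Set.Iio (k + 1)) → (∀ i < k + 1, f i < M - 1) →
        0 < dt (Function.update (rws Y (k + 1) f c) (k + 1) (Y (M - 1))) := by
      intro f hf hf'
      have h1 := H (fun i => if i < k + 1 then f i else M - 1) (by
        intro i hi j hj hij
        simp only [Set.mem_Iio] at hi hj
        rcases Nat.lt_or_ge j (k + 1) with h | h
        · simp only [if_pos h, if_pos (hij.trans h)]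
          exact hf (hij.trans h) h hij
        · have : i < k + 1 := by omega
          simp only [if_neg (not_lt.2 h), if_pos this]
          exact hf' i this) (fun i hi => by
        rcases Nat.lt_or_ge i (k + 1) with h | h
        · simp only [if_pos h]
          exact (hf' i h).trans_le (Nat.sub_le _ _)
        · simp only [if_neg (not_lt.2 h)]
          omega)
      refine lt_of_lt_of_eq h1 (dt_congr fun i hi => ?_)
      simp only [Function.update_apply, rws]
      split_ifs <;> first | rfl | (exfalso; omega)
    obtain ⟨w', hw'⟩ := ih (M - 1) (Function.update c (k + 1) (Y (M - 1))) (by omega) (by omega) (by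
      intro f hf hf'
      refine lt_of_lt_of_eq (hext f hf hf') (dt_congr fun i hi => ?_)
      simp only [Function.update_apply, rws]
      split_ifs <;> first | rfl | (exfalso; omega))
    let R : (Fin (k + 1) → Fin M) → ℕ → Fin n → ℝ :=
      fun g => rws Y (k + 1) (fun i => if h : i < k + 1 then g ⟨i, h⟩ else 0) c
    obtain ⟨ε, hε, he⟩ := exists_eps (fun g => dt (Function.update (R g) (k + 1) (Y (M - 1))))
      (fun g => dt (Function.update (R g) (k + 1) w'))
    refine ⟨Y (M - 1) - ε • w', fun f hf hf' => ?_⟩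
    rw [dt_update_sub _ _ (by omega)]
    by_cases hlast : f k < M - 1
    · have h1 : ∀ w, dt (Function.update (rws Y (k + 1) f c) (k + 1) w) =
          dt (Function.update (R fun i => ⟨f i, hf' i i.2⟩) (k + 1) w) := by
        intro w
        refine dt_congr fun i hi => ?_
        simp only [R, Function.update_apply, rws]
        by_cases h : i = k + 1
        · rw [if_pos h, if_pos h]
        · rw [if_neg h, if_neg h]
          by_cases h' : i < k + 1
          · simp only [if_pos h', dif_pos h']
          · simp only [if_neg h']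
      rw [h1, h1]
      refine he (fun i => ⟨f i, hf' i i.2⟩) ?_
      rw [← h1]
      refine hext f hf fun i hi => ?_
      rcases Nat.lt_or_ge i k with h | h
      · exact (hf (Set.mem_Iio.2 hi) (Set.mem_Iio.2 (Nat.lt_succ_self k)) h).trans hlast
      · have : i = k := by omega
        rw [this]
        exact hlast
    · have hlast' : f k = M - 1 := by
        have := hf' k (Nat.lt_succ_self k)
        omega
      have h1 : dt (Function.update (rws Y (k + 1) f c) (k + 1) (Y (M - 1))) = 0 := by
        refine dt_eq_zero _ k (k + 1) (by omega) (by omega) (by omega) ?_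
        rw [Function.update_self, Function.update_of_ne (by omega), rws, if_pos (Nat.lt_succ_self k), hlast']
      rw [h1, zero_sub, neg_pos]
      have h2 := hw' f (hf.mono fun i hi => by
        simp only [Set.mem_Iio] at hi ⊢
        omega) (fun i hi => by
        have := hf (show i ∈ Set.Iio (k + 1) by simp only [Set.mem_Iio]; omega)
          (show k ∈ Set.Iio (k + 1) by simp only [Set.mem_Iio]; omega) hi
        omega)
      have h3 : dt (Function.update (rws Y (k + 1) f c) (k + 1) w') =
          -dt (Function.update (rws Y k f (Function.update c (k + 1) (Y (M - 1)))) k w') := by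
        have h4 := dt_swap (rws Y k f c) k (k + 1) (by omega) (by omega) (by omega) (Y (M - 1)) w'
        rw [dt_congr (R := Function.update (rws Y (k + 1) f c) (k + 1) w')
          (R' := Function.update (Function.update (rws Y k f c) k (Y (M - 1))) (k + 1) w'), h4,
          dt_congr (R := Function.update (Function.update (rws Y k f c) k w') (k + 1) (Y (M - 1)))
          (R' := Function.update (rws Y k f (Function.update c (k + 1) (Y (M - 1)))) k w')]
        · intro i hi
          simp only [Function.update_apply, rws]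
          by_cases h5 : i = k + 1
          · rw [if_pos h5, if_neg (by omega), if_neg (by omega), if_pos h5]
          · rw [if_neg h5]
            by_cases h6 : i = k
            · rw [if_pos h6, if_pos h6]
            · rw [if_neg h6, if_neg h6]
              by_cases h7 : i < k
              · rw [if_pos h7, if_pos h7]
              · rw [if_neg h7, if_neg h7, if_neg h5]
        · intro i hi
          simp only [Function.update_apply, rws]
          by_cases h5 : i = k + 1
          · rw [if_pos h5, if_pos h5]
          · rw [if_neg h5, if_neg h5]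
            by_cases h6 : i = k
            · rw [if_pos (by omega), if_pos h6, h6, hlast']
            · rw [if_neg h6]
              by_cases h7 : i < k
              · rw [if_pos (by omega), if_pos h7]
              · rw [if_neg (by omega), if_neg h7]
      rw [h3]
      exact mul_neg_of_pos_of_neg hε (by linarith)

/-- a totally positive list can be extended at the end -/
theorem TP.extend {n M : ℕ} {Y : ℕ → Fin n → ℝ} (h : TP n M Y) (hn : 0 < n) (hM : n ≤ M) :
    ∃ w : Fin n → ℝ, TP n (M + 1) (Function.update Y M w) := by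
  obtain ⟨k, rfl⟩ : ∃ k, n = k + 1 := ⟨n - 1, by omega⟩
  obtain ⟨w, hw⟩ := ext_aux Y k M (fun _ => 0) le_rfl hM (fun f hf hf' => by
    refine lt_of_lt_of_eq (h f hf hf') (dt_congr fun i hi => ?_)
    rw [rws, if_pos hi])
  refine ⟨w, fun f hf hf' => ?_⟩
  by_cases hlast : f k < M
  · have h1 : ∀ i < k + 1, f i < M := by
      intro i hi
      rcases Nat.lt_or_ge i k with h2 | h2
      · exact (hf (Set.mem_Iio.2 hi) (Set.mem_Iio.2 (Nat.lt_succ_self k)) h2).trans hlast
      · have : i = k := by omega
        rw [this]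
        exact hlast
    refine lt_of_lt_of_eq (h f hf h1) (dt_congr fun i hi => ?_)
    rw [Function.update_of_ne (h1 i hi).ne]
  · have hlast' : f k = M := by
      have := hf' k (Nat.lt_succ_self k)
      omega
    have h1 : ∀ i < k, f i < M := by
      intro i hi
      have := hf (show i ∈ Set.Iio (k + 1) by simp only [Set.mem_Iio]; omega)
        (show k ∈ Set.Iio (k + 1) by simp only [Set.mem_Iio]; omega) hi
      omega
    refine lt_of_lt_of_eq (hw f (hf.mono fun i hi => by
      simp only [Set.mem_Iio] at hi ⊢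
      omega) h1) (dt_congr fun i hi => ?_)
    simp only [Function.update_apply, rws]
    by_cases h2 : i = k
    · rw [if_pos h2, if_pos (by rw [h2, hlast'])]
    · have h3 : i < k := by omega
      rw [if_neg h2, if_pos h3, if_neg (h1 i h3).ne]

/-- extension by several vectors -/
theorem TP.extend_many {n M : ℕ} {Y : ℕ → Fin n → ℝ} (h : TP n M Y) (hn : 0 < n) (hM : n ≤ M) (r : ℕ) :
    ∃ Y' : ℕ → Fin n → ℝ, TP n (M + r) Y' ∧ ∀ z < M, Y' z = Y z := by
  induction r with
  | zero => exact ⟨Y, h, fun _ _ => rfl⟩
  | succ r ih =>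
    obtain ⟨Y', h1, h2⟩ := ih
    obtain ⟨w, hw⟩ := h1.extend hn (by omega)
    refine ⟨Function.update Y' (M + r) w, hw, fun z hz => ?_⟩
    rw [Function.update_of_ne (by omega), h2 z hz]

theorem det_last_row {n : ℕ} (A : Matrix (Fin (n + 1)) (Fin (n + 1)) ℝ)
    (h : ∀ j, A (Fin.last n) j = if j = Fin.last n then 1 else 0) :
    A.det = (A.submatrix Fin.castSucc Fin.castSucc).det := by
  rw [Matrix.det_succ_row A (Fin.last n), Finset.sum_eq_single (Fin.last n)]
  · rw [h, if_pos rfl]
    simp
  · intro j _ hj
    rw [h, if_neg hj]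
    simp
  · simp

theorem det_unit_rows (q : ℕ → ℕ → ℝ) (m r : ℕ)
    (h : ∀ i, m ≤ i → i < m + r → ∀ j, j < m + r → q i j = if j = i then 1 else 0) :
    (Matrix.of fun i j : Fin (m + r) => q i j).det = (Matrix.of fun i j : Fin m => q i j).det := by
  induction r with
  | zero => rfl
  | succ r ih =>
    rw [← ih (fun i hi hi' j hj => h i hi (by omega) j (by omega))]
    have h1 := det_last_row (Matrix.of fun i j : Fin (m + r + 1) => q i j) (by
      intro j
      simp only [Matrix.of_apply, Fin.val_last]
      rw [h (m + r) (by omega) (by omega) j (by omega)]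
      by_cases hj : j = Fin.last (m + r)
      · rw [if_pos hj, if_pos (by rw [hj]; simp)]
      · rw [if_neg hj, if_neg (fun h' => hj (Fin.ext (by simpa using h')))])
    exact h1

/-- coordinates in which a totally positive list has positive initial minors -/
theorem TP.exists_ftp {n M : ℕ} {Y : ℕ → Fin n → ℝ} (h : TP n M Y) (hn : 0 < n) (hM : n ≤ M) :
    ∃ (P : ℕ → Fin n → ℝ) (y : ℕ → ℕ → ℝ), 0 < dt P ∧ FTP n M y ∧
      ∀ z < M, Y z = ∑ j ∈ Finset.range n, y z j • P j := by
  obtain ⟨Y', h1, h2⟩ := h.extend_many hn hM n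
  let P : ℕ → Fin n → ℝ := fun i => Y' (M + i)
  have hP : 0 < dt P := h1 (fun i => M + i) (fun i _ j _ hij => Nat.add_lt_add_left hij M)
    (fun i hi => Nat.add_lt_add_left hi M)
  let Pm : Matrix (Fin n) (Fin n) ℝ := Matrix.of fun i : Fin n => P i
  have hPu : IsUnit Pm.det := (ne_of_gt hP).isUnit
  let y : ℕ → ℕ → ℝ := fun z j => if hj : j < n then (Matrix.vecMul (Y' z) Pm⁻¹) ⟨j, hj⟩ else 0
  have hy : ∀ z, Y' z = ∑ j ∈ Finset.range n, y z j • P j := by
    intro z
    have h3 : Matrix.vecMul (Matrix.vecMul (Y' z) Pm⁻¹) Pm = Y' z := by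
      rw [Matrix.vecMul_vecMul, Matrix.nonsing_inv_mul _ hPu, Matrix.vecMul_one]
    rw [Finset.sum_range]
    conv_lhs => rw [← h3]
    ext l
    rw [Matrix.vecMul, dotProduct, Finset.sum_apply]
    refine Finset.sum_congr rfl fun j _ => ?_
    simp only [y, j.2, dif_pos, Pm, Matrix.of_apply, Pi.smul_apply, smul_eq_mul, Fin.eta]
  refine ⟨P, y, hP, fun m hm z hz => ?_, fun z hz => by rw [← h2 z hz]; exact hy z⟩
  -- rows `z, .., z + m - 1` followed by `P m, .., P (n - 1)`
  obtain ⟨r, rfl⟩ : ∃ r, n = m + r := ⟨n - m, by omega⟩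
  let q : ℕ → ℕ → ℝ := fun i j => if i < m then y (z + i) j else if j = i then 1 else 0
  have h3 : 0 < dt (n := m + r) (fun i => Y' (if i < m then z + i else M + i)) := by
    refine h1 (fun i => if i < m then z + i else M + i) ?_ ?_
    · intro i hi j hj hij
      simp only [Set.mem_Iio] at hi hj
      show (if i < m then z + i else M + i) < if j < m then z + j else M + j
      split_ifs <;> omega
    · intro i hi
      show (if i < m then z + i else M + i) < M + (m + r)
      split_ifs <;> omega
  have h4 : (Matrix.of fun i : Fin (m + r) => Y' (if (i : ℕ) < m then z + i else M + i)) =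
      (Matrix.of fun i j : Fin (m + r) => q i j) * Pm := by
    ext i l
    rw [Matrix.mul_apply]
    simp only [Matrix.of_apply, q, Pm]
    by_cases hi : (i : ℕ) < m
    · simp only [if_pos hi]
      conv_lhs => rw [hy (z + i)]
      rw [Finset.sum_range, Finset.sum_apply]
      rfl
    · simp only [if_neg hi]
      rw [Finset.sum_eq_single i]
      · simp [P]
      · intro j _ hj
        rw [if_neg (fun h' => hj (Fin.ext h')), zero_mul]
      · simp
  have h5 : dt (n := m + r) (fun i => Y' (if i < m then z + i else M + i)) =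
      (Matrix.of fun i j : Fin m => q i j).det * dt P := by
    unfold dt
    rw [h4, Matrix.det_mul, det_unit_rows q m r]
    intro i hi _ j _
    simp only [q, if_neg (not_lt.2 hi)]
  rw [h5] at h3
  have h6 := (pos_iff_pos_of_mul_pos h3).2 hP
  refine lt_of_lt_of_eq h6 ?_
  congr 1
  ext i j
  simp only [Matrix.of_apply, q, i.2, if_pos]

/-- POT for totally positive lists in `R ^ (n + 2)` -/
theorem chg_le_TP {n M : ℕ} {Y : ℕ → Fin (n + 2) → ℝ} (h : TP (n + 2) M Y) (hM : n + 2 ≤ M)
    (A : (Fin (n + 2) → ℝ) →ₗ[ℝ] ℂ) (hD : ∀ z, z + 1 < M → D (A (Y z)) (A (Y (z + 1))) ≠ 0) :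
    chg (Ds (lst (fun z => A (Y z)) M)) ≤ 2 * n := by
  obtain ⟨P, y, _, h1, h2⟩ := h.exists_ftp (by omega) hM
  have h3 : ∀ z < M, A (Y z) = val (n + 2) y (fun j => A (P j)) z := by
    intro z hz
    rw [h2 z hz, map_sum, val]
    refine Finset.sum_congr rfl fun j _ => ?_
    rw [map_smul, Complex.real_smul]
  have h4 := chg_le n M y (fun j => A (P j)) h1 (fun z hz => by
    rw [← h3 z (by omega), ← h3 (z + 1) hz]
    exact hD z hz)
  have h5 : chg (Ds (lst (fun z => A (Y z)) M)) = chg (Ds (lst (val (n + 2) y (fun j => A (P j))) M)) :=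
    chg_congr _ _ (Ds_lst _ _ M fun z hz => by
      rw [← h3 z (by omega), ← h3 (z + 1) hz]
      exact mul_self_pos.2 (hD z hz))
  rw [h5]
  exact h4

end COT
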