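import Pool.Agent.COT.TP

/-! # Parallel neighbours: at most `2 n` of them -/

set_option autoImplicit false

open Real ComplexConjugate

noncomputable section

namespace COT

open Classical in
/-- number of zeros among the first `K` entries -/
def zer (d : ℕ → ℝ) (K : ℕ) : ℕ := Nat.count (fun z => d z = 0) K

open Classical in
/-- number of changes of sign among the first `K + 1` entries -/
def chf (d : ℕ → ℝ) (K : ℕ) : ℕ := Nat.count (fun z => d z * d (z + 1) < 0) K

theorem zer_zero (d : ℕ → ℝ) : zer d 0 = 0 := by simp [zer]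
theorem chf_zero (d : ℕ → ℝ) : chf d 0 = 0 := by simp [chf]

open Classical in
theorem zer_succ (d : ℕ → ℝ) (K : ℕ) : zer d (K + 1) = zer d K + if d K = 0 then 1 else 0 := by
  rw [zer, Nat.count_succ]
  rfl

open Classical in
theorem chf_succ (d : ℕ → ℝ) (K : ℕ) :
    chf d (K + 1) = chf d K + if d K * d (K + 1) < 0 then 1 else 0 := by
  rw [chf, Nat.count_succ]
  rfl

open Classical in
theorem zer_succ' (d : ℕ → ℝ) (K : ℕ) :
    zer d (K + 1) = zer (fun z => d (z + 1)) K + if d 0 = 0 then 1 else 0 := by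
  rw [zer, Nat.count_succ']
  rfl

open Classical in
theorem chf_succ' (d : ℕ → ℝ) (K : ℕ) :
    chf d (K + 1) = chf (fun z => d (z + 1)) K + if d 0 * d 1 < 0 then 1 else 0 := by
  rw [chf, Nat.count_succ']
  rfl

theorem chf_congr (d e : ℕ → ℝ) (K : ℕ) (h : ∀ z ≤ K, d z = e z) : chf d K = chf e K := by
  induction K with
  | zero => rw [chf_zero, chf_zero]
  | succ K ih =>
    rw [chf_succ, chf_succ, ih fun z hz => h z (by omega), h K (by omega), h (K + 1) le_rfl]

theorem chf_congr_sign (d e : ℕ → ℝ) (K : ℕ) (h : ∀ z ≤ K, 0 < d z * e z) : chf d K = chf e K := by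
  induction K with
  | zero => rw [chf_zero, chf_zero]
  | succ K ih =>
    rw [chf_succ, chf_succ, ih fun z hz => h z (by omega)]
    have h1 := h K (by omega)
    have h2 := h (K + 1) le_rfl
    have h3 : d K * d (K + 1) < 0 ↔ e K * e (K + 1) < 0 := by
      have h5 : 0 < (d K * d (K + 1)) * (e K * e (K + 1)) := by nlinarith [mul_pos h1 h2]
      constructor
      · intro h6
        by_contra h7
        exact absurd (mul_nonpos_of_nonpos_of_nonneg h6.le (not_lt.1 h7)) (not_le.2 h5)
      · intro h6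
        by_contra h7
        exact absurd (mul_nonpos_of_nonneg_of_nonpos (not_lt.1 h7) h6.le) (not_le.2 h5)
    simp only [h3]

theorem chf_alt (a : ℝ) (ha : a ≠ 0) (K : ℕ) : chf (fun z => a * (-1) ^ z) K = K := by
  induction K with
  | zero => rw [chf_zero]
  | succ K ih =>
    rw [chf_succ, ih, if_pos]
    have h1 : ((-1 : ℝ) ^ K) * (-1) ^ K = 1 := by rw [← mul_pow]; simp
    have h2 : a * (-1) ^ K * (a * (-1) ^ (K + 1)) = -(a * a) := by
      rw [pow_succ]
      linear_combination (-(a * a)) * h1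
    rw [h2, neg_lt_zero]
    exact mul_self_pos.2 ha

theorem zer_all (d : ℕ → ℝ) (K : ℕ) : zer d K ≤ K := by
  rw [zer]
  exact Nat.count_le _

/-- the zeros can be replaced by nonzero numbers with many changes of sign -/
theorem exists_alt (d : ℕ → ℝ) (K : ℕ) (h : ∃ z ≤ K, d z ≠ 0) :
    ∃ e : ℕ → ℝ, (∀ z ≤ K, e z ≠ 0) ∧ (∀ z ≤ K, d z ≠ 0 → e z = d z) ∧ zer d (K + 1) ≤ chf e K := by
  induction K with
  | zero =>
    obtain ⟨z, hz, hd⟩ := h
    have : z = 0 := by omega
    subst this
    refine ⟨d, fun z hz => ?_, fun _ _ _ => rfl, ?_⟩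
    · have : z = 0 := by omega
      rw [this]
      exact hd
    · rw [zer_succ, if_neg hd, zer_zero]
      omega
  | succ K ih =>
    by_cases h1 : ∃ z ≤ K, d z ≠ 0
    · obtain ⟨e, h2, h3, h4⟩ := ih h1
      let e' : ℕ → ℝ := fun z => if z = K + 1 then (if d (K + 1) = 0 then -e K else d (K + 1)) else e z
      have h5 : ∀ z ≤ K, e' z = e z := fun z hz => if_neg (by omega)
      have h6 : e' (K + 1) = if d (K + 1) = 0 then -e K else d (K + 1) := if_pos rfl
      refine ⟨e', fun z hz => ?_, fun z hz hd => ?_, ?_⟩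
      · rcases Nat.lt_or_ge z (K + 1) with h7 | h7
        · rw [h5 z (by omega)]
          exact h2 z (by omega)
        · have : z = K + 1 := by omega
          rw [this, h6]
          split_ifs with h8
          · exact neg_ne_zero.2 (h2 K le_rfl)
          · exact h8
      · rcases Nat.lt_or_ge z (K + 1) with h7 | h7
        · rw [h5 z (by omega)]
          exact h3 z (by omega) hd
        · have : z = K + 1 := by omega
          subst this
          rw [h6, if_neg hd]
      · rw [zer_succ, chf_succ, chf_congr e' e K h5, h5 K le_rfl, h6]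
        by_cases h8 : d (K + 1) = 0
        · rw [if_pos h8, if_pos h8, if_pos]
          · omega
          · have := mul_self_pos.2 (h2 K le_rfl)
            linarith
        · rw [if_neg h8]
          omega
    · have h2 : ∀ z ≤ K, d z = 0 := by
        intro z hz
        by_contra h3
        exact h1 ⟨z, hz, h3⟩
      have h3 : d (K + 1) ≠ 0 := by
        obtain ⟨z, hz, hd⟩ := h
        have : z = K + 1 := by
          by_contra h4
          exact hd (h2 z (by omega))
        rwa [this] at hd
      have h1 : ((-1 : ℝ) ^ (K + 1)) * (-1) ^ (K + 1) = 1 := by rw [← mul_pow]; simp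
      refine ⟨fun z => d (K + 1) * (-1) ^ (K + 1) * (-1) ^ z, fun z _ => ?_, fun z hz hd => ?_, ?_⟩
      · exact mul_ne_zero (mul_ne_zero h3 (by simp)) (by simp)
      · have : z = K + 1 := by
          by_contra h4
          exact hd (h2 z (by omega))
        subst this
        show d (K + 1) * (-1) ^ (K + 1) * (-1) ^ (K + 1) = d (K + 1)
        linear_combination (d (K + 1)) * h1
      · rw [chf_alt _ (mul_ne_zero h3 (by simp)), zer_succ, if_neg h3]
        exact zer_all d (K + 1)

theorem chg_Ds_lst (M : ℕ) : ∀ v : ℕ → ℂ, chg (Ds (lst v (M + 2))) = chf (fun z => D (v z) (v (z + 1))) M := by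
  induction M with
  | zero =>
    intro v
    rw [chf_zero]
    rfl
  | succ M ih =>
    intro v
    rw [chf_succ', ← ih (fun i => v (i + 1))]
    have h1 : chg (Ds (lst v (M + 1 + 2))) = (if D (v 0) (v 1) * D (v 1) (v 2) < 0 then 1 else 0) +
        chg (Ds (lst (fun i => v (i + 1)) (M + 2))) := rfl
    rw [h1, add_comm]

/-- openness of total positivity along a line -/
theorem TP.small {n M : ℕ} {Y : ℕ → Fin n → ℝ} (h : TP n M Y) (W : ℕ → Fin n → ℝ) :
    ∃ δ : ℝ, 0 < δ ∧ TP n M fun z => Y z + δ • W z := by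
  have h1 : ∀ᶠ δ : ℝ in nhdsWithin 0 (Set.Ioi 0), ∀ g : Fin n → Fin M,
      0 < (Matrix.of fun i : Fin n => Y (g i)).det → 0 < (Matrix.of fun i : Fin n => Y (g i) + δ • W (g i)).det := by
    rw [Filter.eventually_all]
    intro g
    by_cases hP : 0 < (Matrix.of fun i : Fin n => Y (g i)).det
    · have h2 : Continuous fun δ : ℝ => (Matrix.of fun i : Fin n => Y (g i) + δ • W (g i)).det := by
        refine Continuous.matrix_det ?_
        refine continuous_pi fun i => continuous_pi fun j => ?_
        simp only [Matrix.of_apply, Pi.add_apply, Pi.smul_apply, smul_eq_mul]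
        fun_prop
      have h3 := (h2.tendsto 0).mono_left (nhdsWithin_le_nhds (s := Set.Ioi 0))
      simp only [zero_smul, add_zero] at h3
      exact (h3.eventually (lt_mem_nhds hP)).mono fun δ hδ _ => hδ
    · exact Filter.Eventually.of_forall fun δ h => absurd h hP
  obtain ⟨δ, h2, h3⟩ := (h1.and self_mem_nhdsWithin).exists
  refine ⟨δ, h3, fun f hf hf' => ?_⟩
  exact h2 (fun i => ⟨f i, hf' i i.2⟩) (h f hf hf')

/-- a functional vanishing on a totally positive list vanishes -/
theorem TP.eq_zero {n M : ℕ} {Y : ℕ → Fin n → ℝ} (h : TP n M Y) (hM : n ≤ M)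
    {V : Type*} [AddCommGroup V] [Module ℝ V] (f : (Fin n → ℝ) →ₗ[ℝ] V) (hf : ∀ z < M, f (Y z) = 0) :
    f = 0 := by
  have h1 : 0 < (Matrix.of fun i : Fin n => Y i).det :=
    h id (fun i _ j _ hij => hij) (fun i hi => by simp only [id]; omega)
  set B : Matrix (Fin n) (Fin n) ℝ := Matrix.of fun i : Fin n => Y i with hB
  have hPu : IsUnit B.det := (ne_of_gt h1).isUnit
  apply LinearMap.ext
  intro x
  have h3 : Matrix.vecMul (Matrix.vecMul x B⁻¹) B = x := by
    rw [Matrix.vecMul_vecMul, Matrix.nonsing_inv_mul _ hPu, Matrix.vecMul_one]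
  have h4 : x = ∑ j : Fin n, (Matrix.vecMul x B⁻¹) j • Y j := by
    conv_lhs => rw [← h3]
    ext l
    rw [Matrix.vecMul, dotProduct, Finset.sum_apply]
    rfl
  rw [h4, map_sum]
  simp only [map_smul, hf _ (lt_of_lt_of_le (Fin.is_lt _) hM), smul_zero, Finset.sum_const_zero,
    LinearMap.zero_apply]

theorem D_smul_right (u v : ℂ) (r : ℝ) : D u (r * v) = r * D u v := by
  have := D_scale u v 1 r
  rw [Complex.ofReal_one, one_mul, one_mul] at this
  exact this

theorem D_smul_left (u v : ℂ) (r : ℝ) : D (r * u) v = r * D u v := by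
  have := D_scale u v r 1
  rw [Complex.ofReal_one, one_mul, mul_one] at this
  exact this

/-- nonzero parallel vectors are real multiples of each other -/
theorem exists_mul_of_D {u v : ℂ} (hu : u ≠ 0) (h : D u v = 0) : ∃ r : ℝ, v = r * u := by
  refine ⟨(v / u).re, ?_⟩
  have h1 : (v / u).im = 0 := by
    rw [Complex.div_im]
    rw [D_eq] at h
    have h2 : Complex.normSq u ≠ 0 := (Complex.normSq_pos.2 hu).ne'
    field_simp
    linarith
  have h2 : v / u = ((v / u).re : ℂ) := by
    apply Complex.ext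
    · simp
    · rw [h1]; simp
  rw [← h2, div_mul_cancel₀ _ hu]

theorem zer_le {n M : ℕ} {Y : ℕ → Fin (n + 2) → ℝ} (h : TP (n + 2) M Y) (hM : n + 2 ≤ M)
    (A : (Fin (n + 2) → ℝ) →ₗ[ℝ] ℂ) (hA : Function.Surjective A) (hv : ∀ z < M, A (Y z) ≠ 0) :
    zer (fun z => D (A (Y z)) (A (Y (z + 1)))) (M - 1) ≤ 2 * n := by
  set d : ℕ → ℝ := fun z => D (A (Y z)) (A (Y (z + 1))) with hd
  obtain ⟨K, rfl⟩ : ∃ K, M = K + 2 := ⟨M - 2, by omega⟩
  -- not all determinants vanish
  have h1 : ∃ z ≤ K, d z ≠ 0 := by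
    by_contra hcon
    push Not at hcon
    have h2 : ∀ z < K + 2, D (A (Y 0)) (A (Y z)) = 0 := by
      intro z
      induction z with
      | zero => intro _; exact D_self _
      | succ z ih =>
        intro hz
        obtain ⟨r, hr⟩ := exists_mul_of_D (hv 0 (by omega)) (ih (by omega))
        have h3 := hcon z (by omega)
        simp only [hd, hr, D_smul_left] at h3
        rcases mul_eq_zero.1 h3 with h4 | h4
        · exfalso
          apply hv z (by omega)
          rw [hr, h4]
          simp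
        · exact h4
    let φ : (Fin (n + 2) → ℝ) →ₗ[ℝ] ℝ :=
      { toFun := fun x => D (A (Y 0)) (A x)
        map_add' := fun x y => by rw [map_add, D_add_right]
        map_smul' := fun c x => by
          rw [map_smul, Complex.real_smul, D_smul_right]
          rfl }
    have h3 : φ = 0 := h.eq_zero hM φ h2
    obtain ⟨x, hx⟩ := hA (Complex.I * A (Y 0))
    have h4 : φ x = 0 := by rw [h3]; rfl
    have h5 : D (A (Y 0)) (A x) = Complex.normSq (A (Y 0)) := by
      rw [hx, D_eq, Complex.normSq_apply]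
      simp
    have h6 : φ x = D (A (Y 0)) (A x) := rfl
    rw [h6, h5] at h4
    exact (Complex.normSq_pos.2 (hv 0 (by omega))).ne' h4
  obtain ⟨e, he1, he2, he3⟩ := exists_alt d K h1
  -- the perturbation
  let c : ℕ → ℝ := fun z => (conj (A (Y z)) * A (Y (z + 1))).re
  have hc : ∀ z ≤ K, d z = 0 → c z ≠ 0 := by
    intro z hz hdz hcz
    have h2 : conj (A (Y z)) * A (Y (z + 1)) = 0 := Complex.ext hcz hdz
    rcases mul_eq_zero.1 h2 with h3 | h3
    · exact hv z (by omega) (by simpa using h3)
    · exact hv (z + 1) (by omega) h3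
  let s : ℕ → ℝ := fun z => if d z = 0 then e z * c z else 0
  let θ : ℕ → ℝ := fun z => ∑ i ∈ Finset.range z, s i
  have hθ : ∀ z, θ (z + 1) = θ z + s z := fun z => Finset.sum_range_succ _ _
  obtain ⟨B, hB⟩ := A.exists_rightInverse_of_surjective (LinearMap.range_eq_top.2 hA)
  have hAB : ∀ x, A (B x) = x := fun x => by
    have := congrArg (fun f => f x) hB
    exact this
  obtain ⟨δ, hδ, hTP⟩ := h.small fun z => θ z • B (Complex.I * A (Y z))
  set Y' : ℕ → Fin (n + 2) → ℝ := fun z => Y z + δ • (θ z • B (Complex.I * A (Y z))) with hY'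
  have hAY : ∀ z, A (Y' z) = (1 + (δ * θ z : ℝ) * Complex.I) * A (Y z) := by
    intro z
    simp only [hY', map_add, map_smul, hAB, Complex.real_smul]
    push_cast
    ring
  have hD : ∀ z, D (A (Y' z)) (A (Y' (z + 1))) =
      (1 + δ ^ 2 * θ z * θ (z + 1)) * d z + δ * (θ (z + 1) - θ z) * c z := by
    intro z
    rw [D, hAY, hAY, map_mul]
    have h2 : conj (1 + ((δ * θ z : ℝ) : ℂ) * Complex.I) = 1 - ((δ * θ z : ℝ) : ℂ) * Complex.I := by
      simp [sub_eq_add_neg]
    rw [h2]
    have h3 : (1 - ((δ * θ z : ℝ) : ℂ) * Complex.I) * conj (A (Y z)) *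
        ((1 + ((δ * θ (z + 1) : ℝ) : ℂ) * Complex.I) * A (Y (z + 1))) =
        (((1 + δ ^ 2 * θ z * θ (z + 1) : ℝ) : ℂ) + ((δ * (θ (z + 1) - θ z) : ℝ) : ℂ) * Complex.I) *
          (conj (A (Y z)) * A (Y (z + 1))) := by
      push_cast
      linear_combination (-(δ : ℂ) ^ 2 * θ z * θ (z + 1) * (conj (A (Y z)) * A (Y (z + 1)))) * Complex.I_sq
    rw [h3, Complex.mul_im]
    simp only [Complex.add_re, Complex.add_im, Complex.mul_re, Complex.mul_im, Complex.ofReal_re,
      Complex.ofReal_im, Complex.I_re, Complex.I_im, mul_zero, mul_one, add_zero, zero_add, sub_self]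
    rfl
  have hsign : ∀ z ≤ K, 0 < D (A (Y' z)) (A (Y' (z + 1))) * e z := by
    intro z hz
    rw [hD, hθ z]
    by_cases hdz : d z = 0
    · have h2 : s z = e z * c z := if_pos hdz
      rw [hdz, h2, mul_zero, zero_add]
      have h3 := mul_self_pos.2 (hc z hz hdz)
      have h4 := mul_self_pos.2 (he1 z hz)
      have h5 : δ * (θ z + e z * c z - θ z) * c z * e z = δ * ((c z * c z) * (e z * e z)) := by ring
      rw [h5]
      positivity
    · have h2 : s z = 0 := if_neg hdz
      rw [h2, he2 z hz hdz, add_zero, sub_self, mul_zero, zero_mul, add_zero]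
      have h3 := mul_self_pos.2 hdz
      have h5 : (1 + δ ^ 2 * θ z * θ z) * d z * d z = (1 + (δ * θ z) ^ 2) * (d z * d z) := by ring
      rw [h5]
      positivity
  have h2 := chg_le_TP hTP hM A (by
    intro z hz h0
    have := hsign z (by omega)
    rw [show D (A (Y' z)) (A (Y' (z + 1))) = 0 from h0, zero_mul] at this
    exact lt_irrefl _ this)
  have h3 := chg_Ds_lst K (fun z => A (Y' z))
  have h4 := chf_congr_sign (fun z => D (A (Y' z)) (A (Y' (z + 1)))) e K hsign
  have h5 : zer d (K + 2 - 1) = zer d (K + 1) := rfl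
  rw [h5]
  rw [h3, h4] at h2
  exact he3.trans h2

end COT
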